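import Mathlib
import Pool.Agent.H22.KF.Targets

/-!
# MP_3fd637_nt : gcd3, primitive vectors, cross products
-/

namespace KFL

open KF

theorem gcd3_nonneg (x : VZ) : 0 ≤ gcd3 x := by
  unfold gcd3
  exact Int.natCast_nonneg _

theorem gcd3_dvd (x : VZ) (i : Fin 3) : gcd3 x ∣ x i := by
  have h1 : gcd3 x ∣ (Int.gcd (x 0) (x 1) : ℤ) := by
    unfold gcd3
    exact Int.gcd_dvd_left _ _
  have h2 : gcd3 x ∣ x 2 := by
    unfold gcd3
    exact Int.gcd_dvd_right _ _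
  fin_cases i
  · exact h1.trans (Int.gcd_dvd_left _ _)
  · exact h1.trans (Int.gcd_dvd_right _ _)
  · exact h2

theorem exists_bezout (x : VZ) : ∃ u : VZ, dotZ u x = gcd3 x := by
  have h1 := Int.gcd_eq_gcd_ab (x 0) (x 1)
  have h2 := Int.gcd_eq_gcd_ab (Int.gcd (x 0) (x 1)) (x 2)
  refine ⟨![Int.gcdA (x 0) (x 1) * Int.gcdA (Int.gcd (x 0) (x 1)) (x 2),
    Int.gcdB (x 0) (x 1) * Int.gcdA (Int.gcd (x 0) (x 1)) (x 2),
    Int.gcdB (Int.gcd (x 0) (x 1)) (x 2)], ?_⟩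
  simp only [dotZ, Matrix.cons_val_zero, Matrix.cons_val_one, Matrix.cons_val]
  unfold gcd3
  rw [h2]
  linear_combination (-(Int.gcdA (Int.gcd (x 0) (x 1)) (x 2))) * h1

theorem dvd_gcd3 {x : VZ} {d : ℤ} (h : ∀ i, d ∣ x i) : d ∣ gcd3 x := by
  obtain ⟨u, hu⟩ := exists_bezout x
  rw [← hu, dotZ]
  exact Dvd.dvd.add (Dvd.dvd.add ((h 0).mul_left _) ((h 1).mul_left _)) ((h 2).mul_left _)

theorem gcd3_of_prim {x : VZ} (hx : Prim x) : gcd3 x = 1 := by
  have h1 := hx _ (gcd3_dvd x)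
  have h2 := gcd3_nonneg x
  rw [Int.isUnit_iff] at h1
  omega

theorem prim_of_gcd3 {x : VZ} (hx : gcd3 x = 1) : Prim x := by
  intro d hd
  have := dvd_gcd3 hd
  rw [hx] at this
  exact isUnit_of_dvd_one this

theorem gcd3_pos {x : VZ} (hx : x ≠ 0) : 0 < gcd3 x := by
  refine lt_of_le_of_ne (gcd3_nonneg x) fun h => hx ?_
  funext i
  have := gcd3_dvd x i
  rw [← h] at this
  exact zero_dvd_iff.1 this

/-- Bezout for primitive vectors -/
theorem prim_bezout {x : VZ} (hx : Prim x) : ∃ u : VZ, dotZ u x = 1 := by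
  obtain ⟨u, hu⟩ := exists_bezout x
  exact ⟨u, by rw [hu, gcd3_of_prim hx]⟩

/-- primitive part -/
theorem exists_prim {x : VZ} (hx : x ≠ 0) :
    gcd3 x • (fun i => x i / gcd3 x : VZ) = x ∧ Prim (fun i => x i / gcd3 x) := by
  have hg := gcd3_pos hx
  have h1 : gcd3 x • (fun i => x i / gcd3 x : VZ) = x := by
    funext i
    simp only [Pi.smul_apply, smul_eq_mul]
    exact Int.mul_ediv_cancel' (gcd3_dvd x i)
  refine ⟨h1, fun d hd => ?_⟩
  have h2 : gcd3 x * d ∣ gcd3 x := by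
    refine dvd_gcd3 fun i => ?_
    have h3 := congrFun h1 i
    simp only [Pi.smul_apply, smul_eq_mul] at h3
    rw [← h3]
    exact mul_dvd_mul_left _ (hd i)
  obtain ⟨k, hk⟩ := h2
  have h4 : gcd3 x * 1 = gcd3 x * (d * k) := by rw [mul_one, ← mul_assoc]; exact hk
  have h5 := mul_left_cancel₀ (ne_of_gt hg) h4
  exact isUnit_of_dvd_one ⟨k, h5⟩

theorem dotZ_cross_left (x y : VZ) : dotZ (crossZ x y) x = 0 := by
  simp only [dotZ, crossZ, Matrix.cons_val_zero, Matrix.cons_val_one, Matrix.cons_val]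
  ring

theorem dotZ_cross_right (x y : VZ) : dotZ (crossZ x y) y = 0 := by
  simp only [dotZ, crossZ, Matrix.cons_val_zero, Matrix.cons_val_one, Matrix.cons_val]
  ring

theorem dotZ_comm (x y : VZ) : dotZ x y = dotZ y x := by
  simp only [dotZ]; ring

theorem dotZ_smul (k : ℤ) (x y : VZ) : dotZ (k • x) y = k * dotZ x y := by
  simp only [dotZ, Pi.smul_apply, smul_eq_mul]; ring

/-- `d` divides all `2 × 2` minors and `u · x = 1`: then `y ≡ (u · y) x` -/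
theorem minors {x y u : VZ} {d : ℤ} (hd : ∀ i, d ∣ crossZ x y i) (hu : dotZ u x = 1) (j : Fin 3) :
    d ∣ y j - dotZ u y * x j := by
  have h0 := hd 0
  have h1 := hd 1
  have h2 := hd 2
  simp only [crossZ, Matrix.cons_val_zero, Matrix.cons_val_one, Matrix.cons_val] at h0 h1 h2
  simp only [dotZ] at hu ⊢
  fin_cases j
  · have e : y 0 - (u 0 * y 0 + u 1 * y 1 + u 2 * y 2) * x 0 =
      u 2 * (x 2 * y 0 - x 0 * y 2) - u 1 * (x 0 * y 1 - x 1 * y 0) +
      (1 - (u 0 * x 0 + u 1 * x 1 + u 2 * x 2)) * y 0 := by ring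
    simp only [Fin.zero_eta, Fin.isValue]
    rw [e, hu]
    simp only [sub_self, zero_mul, add_zero]
    exact Dvd.dvd.sub (h1.mul_left _) (h2.mul_left _)
  · have e : y 1 - (u 0 * y 0 + u 1 * y 1 + u 2 * y 2) * x 1 =
      u 0 * (x 0 * y 1 - x 1 * y 0) - u 2 * (x 1 * y 2 - x 2 * y 1) +
      (1 - (u 0 * x 0 + u 1 * x 1 + u 2 * x 2)) * y 1 := by ring
    simp only [Fin.mk_one, Fin.isValue]
    rw [e, hu]
    simp only [sub_self, zero_mul, add_zero]
    exact Dvd.dvd.sub (h2.mul_left _) (h0.mul_left _)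
  · have e : y 2 - (u 0 * y 0 + u 1 * y 1 + u 2 * y 2) * x 2 =
      u 1 * (x 1 * y 2 - x 2 * y 1) - u 0 * (x 2 * y 0 - x 0 * y 2) +
      (1 - (u 0 * x 0 + u 1 * x 1 + u 2 * x 2)) * y 2 := by ring
    simp only [Fin.reduceFinMk, Fin.isValue]
    rw [e, hu]
    simp only [sub_self, zero_mul, add_zero]
    exact Dvd.dvd.sub (h0.mul_left _) (h1.mul_left _)

/-- two primitive vectors on the same line agree up to sign -/
theorem prim_parallel {x y : VZ} (hx : Prim x) (hy : Prim y) (h : crossZ x y = 0) :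
    y = x ∨ y = -x := by
  obtain ⟨u, hu⟩ := prim_bezout hx
  have h1 : ∀ j, y j = dotZ u y * x j := by
    intro j
    have := minors (d := 0) (x := x) (y := y) (u := u) (by intro i; rw [h]; simp) hu j
    rw [zero_dvd_iff] at this
    linarith
  have h2 : IsUnit (dotZ u y) := hy _ fun i => ⟨x i, h1 i⟩
  rw [Int.isUnit_iff] at h2
  rcases h2 with h2 | h2
  · left
    funext j
    rw [h1 j, h2, one_mul]
  · right
    funext j
    rw [h1 j, h2, Pi.neg_apply, neg_one_mul]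

theorem det_Rm (φ : Frame) : Matrix.det φ.Rm =
    ((dotZ (crossZ (φ.v 0) (φ.v 1)) (φ.v 2) : ℤ) : ℝ) := by
  rw [Matrix.det_fin_three]
  simp only [Frame.Rm, Matrix.of_apply, dotZ, crossZ, Matrix.cons_val_zero, Matrix.cons_val_one,
    Matrix.cons_val]
  push_cast
  ring

theorem triple_ne (φ : Frame) : dotZ (crossZ (φ.v 0) (φ.v 1)) (φ.v 2) ≠ 0 := by
  intro h
  apply φ.det_ne
  rw [det_Rm, h, Int.cast_zero]

theorem cross_ne (φ : Frame) : crossZ (φ.v 0) (φ.v 1) ≠ 0 := by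
  intro h
  apply triple_ne φ
  rw [h]
  simp [dotZ]

theorem w_smul (φ : Frame) : crossZ (φ.v 0) (φ.v 1) = gcd3 (crossZ (φ.v 0) (φ.v 1)) • φ.w :=
  (exists_prim (cross_ne φ)).1.symm

theorem w_prim (φ : Frame) : Prim φ.w := (exists_prim (cross_ne φ)).2

theorem dotZ_mulVec (A : MZ) (x y : VZ) : dotZ (A.transpose.mulVec x) y = dotZ x (A.mulVec y) := by
  simp only [dotZ, Matrix.mulVec, dotProduct, Fin.sum_univ_three, Matrix.transpose_apply]
  ring

/-- an integer vector orthogonal to a basis vanishes -/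
theorem eq_zero_of_dots {x y z t : VZ} (h : dotZ (crossZ x y) z ≠ 0) (hx : dotZ t x = 0)
    (hy : dotZ t y = 0) (hz : dotZ t z = 0) : t = 0 := by
  simp only [dotZ, crossZ, Matrix.cons_val_zero, Matrix.cons_val_one, Matrix.cons_val] at *
  have e0 : t 0 * ((x 1 * y 2 - x 2 * y 1) * z 0 + (x 2 * y 0 - x 0 * y 2) * z 1 +
      (x 0 * y 1 - x 1 * y 0) * z 2) = 0 := by
    have : t 0 * ((x 1 * y 2 - x 2 * y 1) * z 0 + (x 2 * y 0 - x 0 * y 2) * z 1 +
      (x 0 * y 1 - x 1 * y 0) * z 2) =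
      (t 0 * x 0 + t 1 * x 1 + t 2 * x 2) * (y 1 * z 2 - y 2 * z 1) +
      (t 0 * y 0 + t 1 * y 1 + t 2 * y 2) * (z 1 * x 2 - z 2 * x 1) +
      (t 0 * z 0 + t 1 * z 1 + t 2 * z 2) * (x 1 * y 2 - x 2 * y 1) := by ring
    rw [this, hx, hy, hz]; ring
  have e1 : t 1 * ((x 1 * y 2 - x 2 * y 1) * z 0 + (x 2 * y 0 - x 0 * y 2) * z 1 +
      (x 0 * y 1 - x 1 * y 0) * z 2) = 0 := by
    have : t 1 * ((x 1 * y 2 - x 2 * y 1) * z 0 + (x 2 * y 0 - x 0 * y 2) * z 1 +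
      (x 0 * y 1 - x 1 * y 0) * z 2) =
      (t 0 * x 0 + t 1 * x 1 + t 2 * x 2) * (y 2 * z 0 - y 0 * z 2) +
      (t 0 * y 0 + t 1 * y 1 + t 2 * y 2) * (z 2 * x 0 - z 0 * x 2) +
      (t 0 * z 0 + t 1 * z 1 + t 2 * z 2) * (x 2 * y 0 - x 0 * y 2) := by ring
    rw [this, hx, hy, hz]; ring
  have e2 : t 2 * ((x 1 * y 2 - x 2 * y 1) * z 0 + (x 2 * y 0 - x 0 * y 2) * z 1 +
      (x 0 * y 1 - x 1 * y 0) * z 2) = 0 := by
    have : t 2 * ((x 1 * y 2 - x 2 * y 1) * z 0 + (x 2 * y 0 - x 0 * y 2) * z 1 +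
      (x 0 * y 1 - x 1 * y 0) * z 2) =
      (t 0 * x 0 + t 1 * x 1 + t 2 * x 2) * (y 0 * z 1 - y 1 * z 0) +
      (t 0 * y 0 + t 1 * y 1 + t 2 * y 2) * (z 0 * x 1 - z 1 * x 0) +
      (t 0 * z 0 + t 1 * z 1 + t 2 * z 2) * (x 0 * y 1 - x 1 * y 0) := by ring
    rw [this, hx, hy, hz]; ring
  funext i
  fin_cases i
  · exact (mul_eq_zero.1 e0).resolve_right h
  · exact (mul_eq_zero.1 e1).resolve_right h
  · exact (mul_eq_zero.1 e2).resolve_right h

theorem dotZ_sub (x y z : VZ) : dotZ (x - y) z = dotZ x z - dotZ y z := by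
  simp only [dotZ, Pi.sub_apply]; ring

theorem dotZ_smul_right (k : ℤ) (x y : VZ) : dotZ x (k • y) = k * dotZ x y := by
  simp only [dotZ, Pi.smul_apply, smul_eq_mul]; ring

theorem w_dot0 (φ : Frame) : dotZ φ.w (φ.v 0) = 0 := by
  have h1 := dotZ_cross_left (φ.v 0) (φ.v 1)
  rw [w_smul φ, dotZ_smul] at h1
  exact (mul_eq_zero.1 h1).resolve_left (ne_of_gt (gcd3_pos (cross_ne φ)))

theorem w_dot1 (φ : Frame) : dotZ φ.w (φ.v 1) = 0 := by
  have h1 := dotZ_cross_right (φ.v 0) (φ.v 1)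
  rw [w_smul φ, dotZ_smul] at h1
  exact (mul_eq_zero.1 h1).resolve_left (ne_of_gt (gcd3_pos (cross_ne φ)))

theorem IDX : T_IDX := by
  intro A x y α β hx hy hAx hAy
  obtain ⟨u, hu⟩ := prim_bezout hx
  obtain ⟨u', hu'⟩ := prim_bezout hy
  obtain ⟨d, hd⟩ : ∃ d, d = gcd3 (crossZ x y) := ⟨_, rfl⟩
  rw [← hd]
  obtain ⟨k, hk⟩ : ∃ k, k = dotZ u y := ⟨_, rfl⟩
  have h1 : ∀ j, d ∣ y j - k * x j := by
    intro j
    rw [hk]
    exact minors (fun i => by rw [hd]; exact gcd3_dvd _ i) hu j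
  have h2 : ∀ j, d ∣ β * y j - α * k * x j := by
    intro j
    have e : β * y j - α * k * x j = ∑ i, A j i * (y i - k * x i) := by
      have ex := congrFun hAx j
      have ey := congrFun hAy j
      simp only [Matrix.mulVec, dotProduct, Fin.sum_univ_three, Pi.smul_apply,
        smul_eq_mul] at ex ey ⊢
      rw [← ey]
      have : α * k * x j = k * (α * x j) := by ring
      rw [this, ← ex]
      ring
    rw [e]
    exact Finset.dvd_sum fun i _ => (h1 i).mul_left _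
  have h3 : ∀ j, d ∣ (β - α) * y j := by
    intro j
    have e : (β - α) * y j = (β * y j - α * k * x j) - α * (y j - k * x j) := by ring
    rw [e]
    exact Dvd.dvd.sub (h2 j) ((h1 j).mul_left _)
  have h4 : β - α = u' 0 * ((β - α) * y 0) + u' 1 * ((β - α) * y 1) + u' 2 * ((β - α) * y 2) := by
    have : u' 0 * ((β - α) * y 0) + u' 1 * ((β - α) * y 1) + u' 2 * ((β - α) * y 2) =
      (β - α) * dotZ u' y := by simp only [dotZ]; ring
    rw [this, hu', mul_one]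
  rw [h4]
  exact Dvd.dvd.add (Dvd.dvd.add ((h3 0).mul_left _) ((h3 1).mul_left _)) ((h3 2).mul_left _)

theorem W0 : T_W0 := by
  intro φ
  refine ⟨w_prim φ, w_dot0 φ, w_dot1 φ, gcd3_pos (cross_ne φ), w_smul φ, ?_, ?_⟩
  · have h : φ.M.transpose.mulVec φ.w - φ.ev 2 • φ.w = 0 := by
      refine eq_zero_of_dots (triple_ne φ) ?_ ?_ ?_
      · rw [dotZ_sub, dotZ_mulVec, φ.eig 0, dotZ_smul, dotZ_smul_right, w_dot0]
        ring
      · rw [dotZ_sub, dotZ_mulVec, φ.eig 1, dotZ_smul, dotZ_smul_right, w_dot1]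
        ring
      · rw [dotZ_sub, dotZ_mulVec, φ.eig 2, dotZ_smul, dotZ_smul_right]
        ring
    exact sub_eq_zero.1 h
  · exact IDX φ.M (φ.v 0) (φ.v 1) (φ.ev 0) (φ.ev 1) (φ.prim 0) (φ.prim 1) (φ.eig 0) (φ.eig 1)

end KFL
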