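import Mathlib
import Pool.Agent.H27.KF.Base

/-!
# MP_3fd637_nt : frames of a matrix
-/

namespace KFL

open KF

/-- real version of an integer matrix -/
noncomputable def rM (M : MZ) : MR := M.map (Int.cast : ℤ → ℝ)

theorem rM_mulVec (M : MZ) (x : VZ) : (rM M).mulVec (cst x) = cst (M.mulVec x) := by
  funext i
  simp only [rM, cst, Matrix.mulVec, dotProduct, Matrix.map_apply]
  push_cast
  rfl

theorem cst_smul (k : ℤ) (x : VZ) : cst (k • x) = (k : ℝ) • cst x := by
  funext i
  simp [cst]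

theorem cst_inj {x y : VZ} (h : cst x = cst y) : x = y := by
  funext i
  have := congrFun h i
  simp only [cst] at this
  exact_mod_cast this

/-- eigenvectors of a frame form a basis, and an eigenvector is a multiple of one of them -/
theorem frame_li (φ : Frame) : LinearIndependent ℝ (fun i => cst (φ.v i)) := by
  refine Module.End.eigenvectors_linearIndependent' (Matrix.toLin' (rM φ.M))
    (fun i => (φ.ev i : ℝ)) ?_ _ ?_
  · intro i j hij
    have hij' : (φ.ev i : ℝ) = (φ.ev j : ℝ) := hij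
    exact φ.inj (by exact_mod_cast hij')
  · intro i
    rw [Module.End.hasEigenvector_iff, Module.End.mem_eigenspace_iff]
    refine ⟨?_, ?_⟩
    · rw [Matrix.toLin'_apply, rM_mulVec, φ.eig i, cst_smul]
    · intro h0
      apply φ.v_ne i
      exact cst_inj (by rw [h0]; funext j; simp [cst])

theorem eig_mul (φ : Frame) (x : V3) (l : ℝ) (hx : x ≠ 0) (h : (rM φ.M).mulVec x = l • x) :
    ∃ (j : Fin 3) (c : ℝ), l = φ.ev j ∧ c ≠ 0 ∧ x = c • cst (φ.v j) := by
  have hli := frame_li φ
  have hsp : x ∈ Submodule.span ℝ (Set.range fun i => cst (φ.v i)) := by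
    have := hli.span_eq_top_of_card_eq_finrank' (by simp)
    rw [this]
    exact Submodule.mem_top
  obtain ⟨c, hc⟩ := (Submodule.mem_span_range_iff_exists_fun ℝ).1 hsp
  have h1 : ∑ i, (c i * ((φ.ev i : ℝ) - l)) • cst (φ.v i) = 0 := by
    have h2 : (rM φ.M).mulVec x = ∑ i, (c i * (φ.ev i : ℝ)) • cst (φ.v i) := by
      rw [← hc, Matrix.mulVec_sum]
      refine Finset.sum_congr rfl fun i _ => ?_
      rw [Matrix.mulVec_smul, rM_mulVec, φ.eig i, cst_smul, smul_smul]
    have h3 : l • x = ∑ i, (c i * l) • cst (φ.v i) := by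
      rw [← hc, Finset.smul_sum]
      refine Finset.sum_congr rfl fun i _ => ?_
      rw [smul_smul, mul_comm]
    have h4 : ∑ i, (c i * ((φ.ev i : ℝ) - l)) • cst (φ.v i) =
        ∑ i, (c i * (φ.ev i : ℝ)) • cst (φ.v i) - ∑ i, (c i * l) • cst (φ.v i) := by
      rw [← Finset.sum_sub_distrib]
      refine Finset.sum_congr rfl fun i _ => ?_
      rw [← sub_smul]
      congr 1
      ring
    rw [h4, ← h2, ← h3, h, sub_self]
  have h2 : ∀ i, c i * ((φ.ev i : ℝ) - l) = 0 :=
    fun i => Fintype.linearIndependent_iff.1 hli _ h1 i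
  obtain ⟨j, hj⟩ : ∃ j, c j ≠ 0 := by
    by_contra hcon
    push Not at hcon
    apply hx
    rw [← hc]
    simp [hcon]
  have hl : l = φ.ev j := by
    have := (mul_eq_zero.1 (h2 j)).resolve_left hj
    linarith
  refine ⟨j, c j, hl, hj, ?_⟩
  rw [← hc, Finset.sum_eq_single j]
  · intro i _ hij
    have h3 : c i = 0 := by
      refine (mul_eq_zero.1 (h2 i)).resolve_right fun h4 => hij ?_
      apply φ.inj
      have : (φ.ev i : ℝ) = φ.ev j := by rw [← hl]; linarith
      exact_mod_cast this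
    rw [h3, zero_smul]
  · intro h3
    exact absurd (Finset.mem_univ j) h3

theorem SGN : T_SGN := by
  intro φ ψ hM
  have h1 : ∀ i, ∃ (j : Fin 3) (c : ℝ), ((ψ.ev i : ℤ) : ℝ) = φ.ev j ∧ c ≠ 0 ∧
      cst (ψ.v i) = c • cst (φ.v j) := by
    intro i
    refine eig_mul φ (cst (ψ.v i)) (ψ.ev i) ?_ ?_
    · intro h0
      apply ψ.v_ne i
      exact cst_inj (by rw [h0]; funext j; simp [cst])
    · rw [hM, rM_mulVec, ψ.eig i, cst_smul]
  choose s c hs hc hv using h1
  have hinj : Function.Injective s := by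
    intro i j hij
    apply ψ.inj
    have : ((ψ.ev i : ℤ) : ℝ) = ψ.ev j := by rw [hs i, hs j, hij]
    exact_mod_cast this
  refine ⟨Equiv.ofBijective s (Finite.injective_iff_bijective.1 hinj), fun i => ⟨?_, ?_⟩⟩
  · have := hs i
    exact_mod_cast this
  · refine prim_parallel (φ.prim _) (ψ.prim i) ?_
    have h2 : ∀ k, ((ψ.v i k : ℤ) : ℝ) = c i * ((φ.v (s i) k : ℤ) : ℝ) := by
      intro k
      have := congrFun (hv i) k
      simpa [cst] using this
    have h3 : ∀ a b : Fin 3, φ.v (s i) a * ψ.v i b - φ.v (s i) b * ψ.v i a = 0 := by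
      intro a b
      have : ((φ.v (s i) a * ψ.v i b - φ.v (s i) b * ψ.v i a : ℤ) : ℝ) = 0 := by
        push_cast
        rw [h2 a, h2 b]
        ring
      exact_mod_cast this
    funext k
    fin_cases k
    · exact h3 1 2
    · exact h3 2 0
    · exact h3 0 1

theorem frame_ext {φ ψ : Frame} (h1 : φ.M = ψ.M) (h2 : φ.ev = ψ.ev) (h3 : φ.v = ψ.v) : φ = ψ := by
  cases φ
  cases ψ
  simp only at h1 h2 h3
  subst h1 h2 h3
  rfl

/-- reordering and changing signs -/
def tw (φ : Frame) (p : Equiv.Perm (Fin 3) × (Fin 3 → ℤˣ)) : Frame where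
  M := φ.M
  ev := fun i => φ.ev (p.1 i)
  v := fun i => ((p.2 i : ℤˣ) : ℤ) • φ.v (p.1 i)
  inj := φ.inj.comp p.1.injective
  eig := fun i => by
    rw [Matrix.mulVec_smul, φ.eig, smul_comm]
  prim := fun i d hd => by
    refine φ.prim (p.1 i) d fun j => ?_
    have h := hd j
    simp only [Pi.smul_apply, smul_eq_mul] at h
    exact (Units.isUnit (p.2 i)).dvd_mul_left.1 h

theorem tw_inj (φ : Frame) : Function.Injective (tw φ) := by
  intro p q h
  have h1 : p.1 = q.1 := by
    ext i
    have h2 : (tw φ p).ev i = (tw φ q).ev i := by rw [h]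
    have := φ.inj h2
    rw [this]
  have h2 : p.2 = q.2 := by
    funext i
    have h3 : (tw φ p).v i = (tw φ q).v i := by rw [h]
    simp only [tw] at h3
    rw [h1] at h3
    obtain ⟨k, hk⟩ : ∃ k, φ.v (q.1 i) k ≠ 0 := by
      by_contra hcon
      push Not at hcon
      exact φ.v_ne (q.1 i) (funext hcon)
    have h4 := congrFun h3 k
    simp only [Pi.smul_apply, smul_eq_mul] at h4
    exact Units.ext (mul_right_cancel₀ hk h4)
  exact Prod.ext h1 h2

theorem tw_range (φ : Frame) : {ψ : Frame | ψ.M = φ.M} = Set.range (tw φ) := by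
  ext ψ
  constructor
  · intro h
    obtain ⟨σ, hσ⟩ := SGN φ ψ (by rw [h])
    have h2 : ∀ i, ∃ e : ℤˣ, ψ.v i = (e : ℤ) • φ.v (σ i) := by
      intro i
      rcases (hσ i).2 with h3 | h3
      · exact ⟨1, by rw [h3]; simp⟩
      · exact ⟨-1, by rw [h3]; simp⟩
    choose e he using h2
    refine ⟨(σ, e), frame_ext ?_ ?_ ?_⟩
    · exact h.symm
    · funext i
      exact (hσ i).1.symm
    · funext i
      exact (he i).symm
  · rintro ⟨p, rfl⟩
    rfl

theorem F48 : T_F48 := by
  intro φ
  rw [tw_range]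
  refine ⟨Set.finite_range _, ?_⟩
  rw [← Set.image_univ, Set.ncard_image_of_injective _ (tw_inj φ), Set.ncard_univ,
    Nat.card_eq_fintype_card, Fintype.card_prod, Fintype.card_perm, Fintype.card_fun,
    Fintype.card_fin]
  rfl

theorem FRM : T_FRM := by
  intro M e v he hv
  -- the eigenvalues are integers
  have h1 : ∀ i, ∃ l : ℤ, e i = l := by
    intro i
    have hdet : (rM M - Matrix.scalar (Fin 3) ((e i : ℚ) : ℝ)).det = 0 := by
      rw [← Matrix.exists_mulVec_eq_zero_iff]
      refine ⟨v i, (hv i).1, ?_⟩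
      rw [Matrix.sub_mulVec, Matrix.scalar_apply, Matrix.diagonal_const_mulVec]
      have := (hv i).2
      rw [rM, this, sub_self]
    have hroot : (rM M).charpoly.eval ((e i : ℚ) : ℝ) = 0 := by
      rw [Matrix.eval_charpoly]
      have : Matrix.scalar (Fin 3) ((e i : ℚ) : ℝ) - rM M =
        -(rM M - Matrix.scalar (Fin 3) ((e i : ℚ) : ℝ)) := by rw [neg_sub]
      rw [this, Matrix.det_neg, hdet, mul_zero]
    have hcp : (rM M).charpoly = M.charpoly.map (Int.castRingHom ℝ) := by
      rw [← Matrix.charpoly_map]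
      rfl
    have hint : IsIntegral ℤ (e i) := by
      refine ⟨M.charpoly, M.charpoly_monic, ?_⟩
      have h2 : ((Polynomial.eval₂ (algebraMap ℤ ℚ) (e i) M.charpoly : ℚ) : ℝ) = 0 := by
        rw [hcp, Polynomial.eval_map] at hroot
        have h3 : ((Polynomial.eval₂ (algebraMap ℤ ℚ) (e i) M.charpoly : ℚ) : ℝ) =
          Polynomial.eval₂ ((algebraMap ℚ ℝ).comp (algebraMap ℤ ℚ)) (algebraMap ℚ ℝ (e i))
            M.charpoly := by
          rw [← Polynomial.hom_eval₂]
          rfl
        rw [h3]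
        exact hroot
      exact_mod_cast h2
    obtain ⟨l, hl⟩ := IsIntegrallyClosed.isIntegral_iff.1 hint
    exact ⟨l, hl.symm⟩
  choose l hl using h1
  -- integer eigenvectors
  have h2 : ∀ i, ∃ x : VZ, Prim x ∧ M.mulVec x = l i • x := by
    intro i
    have hdet : (M - Matrix.scalar (Fin 3) (l i)).det = 0 := by
      have hdetR : (rM M - Matrix.scalar (Fin 3) ((l i : ℤ) : ℝ)).det = 0 := by
        rw [← Matrix.exists_mulVec_eq_zero_iff]
        refine ⟨v i, (hv i).1, ?_⟩
        rw [Matrix.sub_mulVec, Matrix.scalar_apply, Matrix.diagonal_const_mulVec]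
        have := (hv i).2
        rw [hl i] at this
        push_cast at this
        rw [rM, this, sub_self]
      have h3 : rM M - Matrix.scalar (Fin 3) ((l i : ℤ) : ℝ) =
          (Int.castRingHom ℝ).mapMatrix (M - Matrix.scalar (Fin 3) (l i)) := by
        ext a b
        rw [RingHom.mapMatrix_apply, Matrix.map_apply, Matrix.sub_apply, Matrix.sub_apply,
          Matrix.scalar_apply, Matrix.scalar_apply, Matrix.diagonal_apply, Matrix.diagonal_apply,
          map_sub]
        split_ifs <;> simp [rM]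
      rw [h3, ← RingHom.map_det] at hdetR
      have : (((M - Matrix.scalar (Fin 3) (l i)).det : ℤ) : ℝ) = 0 := hdetR
      exact_mod_cast this
    obtain ⟨x, hx0, hx⟩ := Matrix.exists_mulVec_eq_zero_iff.2 hdet
    have hx' : M.mulVec x = l i • x := by
      rw [Matrix.sub_mulVec, Matrix.scalar_apply, Matrix.diagonal_const_mulVec, sub_eq_zero] at hx
      exact hx
    obtain ⟨h3, h4⟩ := exists_prim hx0
    refine ⟨_, h4, ?_⟩
    have h5 : gcd3 x • M.mulVec (fun i => x i / gcd3 x) =
        gcd3 x • (l i • (fun i => x i / gcd3 x : VZ)) := by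
      rw [← Matrix.mulVec_smul, h3, hx', smul_comm, h3]
    exact smul_right_injective VZ (ne_of_gt (gcd3_pos hx0)) h5
  choose x hxp hx using h2
  have hinj : Function.Injective l := by
    intro i j hij
    apply he
    rw [hl i, hl j, hij]
  refine ⟨⟨M, l, x, hinj, hx, hxp⟩, rfl, hl, fun i => ?_⟩
  obtain ⟨j, c, hj, hc, hvc⟩ := eig_mul ⟨M, l, x, hinj, hx, hxp⟩ (v i) ((e i : ℚ) : ℝ) (hv i).1
    (hv i).2
  have hij : i = j := by
    apply hinj
    rw [hl i] at hj
    push_cast at hj
    exact_mod_cast hj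
  subst hij
  exact ⟨c, hc, hvc⟩

end KFL
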