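import Mathlib
import Pool.Agent.H27.KF.Base

/-!
# MP_3fd637_nt : norms of integer vectors; BM
-/

namespace KFL

open KF

theorem nz_sq (x : VZ) : nz x ^ 2 = (x 0 : ℝ) ^ 2 + (x 1 : ℝ) ^ 2 + (x 2 : ℝ) ^ 2 := by
  rw [nz, nrm, Real.sq_sqrt (Finset.sum_nonneg fun i _ => sq_nonneg _), Fin.sum_univ_three]
  rfl

theorem nz_nonneg (x : VZ) : 0 ≤ nz x := Real.sqrt_nonneg _

theorem abs_le_nz (x : VZ) (i : Fin 3) : |((x i : ℤ) : ℝ)| ≤ nz x := by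
  rw [← Real.sqrt_sq_eq_abs, nz, nrm]
  refine Real.sqrt_le_sqrt ?_
  exact Finset.single_le_sum (f := fun i => (cst x i) ^ 2) (fun i _ => sq_nonneg _)
    (Finset.mem_univ i)

theorem nz_pos {x : VZ} (hx : x ≠ 0) : 0 < nz x := by
  obtain ⟨i, hi⟩ : ∃ i, x i ≠ 0 := by
    by_contra h
    push Not at h
    exact hx (funext h)
  refine lt_of_lt_of_le ?_ (abs_le_nz x i)
  rw [abs_pos]
  exact_mod_cast hi

theorem one_le_nz {x : VZ} (hx : x ≠ 0) : 1 ≤ nz x := by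
  obtain ⟨i, hi⟩ : ∃ i, x i ≠ 0 := by
    by_contra h
    push Not at h
    exact hx (funext h)
  refine le_trans ?_ (abs_le_nz x i)
  exact_mod_cast Int.one_le_abs hi

theorem nz_smul (k : ℤ) (x : VZ) : nz (k • x) = |(k : ℝ)| * nz x := by
  have h1 : nz (k • x) ^ 2 = (|(k : ℝ)| * nz x) ^ 2 := by
    rw [nz_sq, mul_pow, nz_sq, sq_abs]
    simp only [Pi.smul_apply, smul_eq_mul]
    push_cast
    ring
  exact (pow_left_inj₀ (nz_nonneg _) (mul_nonneg (abs_nonneg _) (nz_nonneg _)) two_ne_zero).1 h1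

theorem nz_neg (x : VZ) : nz (-x) = nz x := by
  have := nz_smul (-1) x
  simpa using this

theorem nz_le_of_coords {x : VZ} {B : ℝ} (h : ∀ i, |((x i : ℤ) : ℝ)| ≤ B) : nz x ≤ 2 * B := by
  have hB : 0 ≤ B := (abs_nonneg _).trans (h 0)
  refine le_of_sq_le_sq ?_ (by linarith)
  rw [nz_sq]
  have h0 := sq_le_sq' (by have := (abs_le.1 (h 0)).1; linarith) (abs_le.1 (h 0)).2
  have h1 := sq_le_sq' (by have := (abs_le.1 (h 1)).1; linarith) (abs_le.1 (h 1)).2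
  have h2 := sq_le_sq' (by have := (abs_le.1 (h 2)).1; linarith) (abs_le.1 (h 2)).2
  nlinarith

/-- Cauchy-Schwarz -/
theorem dotZ_le (x y : VZ) : |((dotZ x y : ℤ) : ℝ)| ≤ nz x * nz y := by
  refine abs_le_of_sq_le_sq ?_ (mul_nonneg (nz_nonneg _) (nz_nonneg _))
  rw [mul_pow, nz_sq, nz_sq, dotZ]
  push_cast
  nlinarith [sq_nonneg ((x 0 : ℝ) * y 1 - x 1 * y 0), sq_nonneg ((x 1 : ℝ) * y 2 - x 2 * y 1),
    sq_nonneg ((x 2 : ℝ) * y 0 - x 0 * y 2)]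

theorem nz_cross_le (x y : VZ) : nz (crossZ x y) ≤ nz x * nz y := by
  refine le_of_sq_le_sq ?_ (mul_nonneg (nz_nonneg _) (nz_nonneg _))
  rw [mul_pow, nz_sq, nz_sq, nz_sq]
  simp only [crossZ, Matrix.cons_val_zero, Matrix.cons_val_one, Matrix.cons_val]
  push_cast
  nlinarith [sq_nonneg ((x 0 : ℝ) * y 0 + x 1 * y 1 + x 2 * y 2)]

theorem cross_le (x y : VZ) (i : Fin 3) : |((crossZ x y i : ℤ) : ℝ)| ≤ nz x * nz y :=
  (abs_le_nz _ i).trans (nz_cross_le x y)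

/-- expansion of a matrix in a basis -/
theorem expand (A : MZ) (x0 x1 x2 : VZ) (a b : Fin 3) :
    dotZ (crossZ x0 x1) x2 * A a b = (A.mulVec x0) a * crossZ x1 x2 b +
      (A.mulVec x1) a * crossZ x2 x0 b + (A.mulVec x2) a * crossZ x0 x1 b := by
  simp only [dotZ, crossZ, Matrix.mulVec, dotProduct, Fin.sum_univ_three]
  fin_cases b <;> simp <;> ring

theorem expand_le (A : MZ) (x0 x1 x2 : VZ) (a b : Fin 3) {N0 N1 N2 : ℝ}
    (h0 : |(((A.mulVec x0) a : ℤ) : ℝ)| ≤ N0) (h1 : |(((A.mulVec x1) a : ℤ) : ℝ)| ≤ N1)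
    (h2 : |(((A.mulVec x2) a : ℤ) : ℝ)| ≤ N2) :
    |((dotZ (crossZ x0 x1) x2 : ℤ) : ℝ)| * |((A a b : ℤ) : ℝ)| ≤
      N0 * (nz x1 * nz x2) + N1 * (nz x2 * nz x0) + N2 * (nz x0 * nz x1) := by
  rw [← abs_mul]
  have e : ((dotZ (crossZ x0 x1) x2 : ℤ) : ℝ) * ((A a b : ℤ) : ℝ) =
      (((A.mulVec x0) a : ℤ) : ℝ) * ((crossZ x1 x2 b : ℤ) : ℝ) +
      (((A.mulVec x1) a : ℤ) : ℝ) * ((crossZ x2 x0 b : ℤ) : ℝ) +
      (((A.mulVec x2) a : ℤ) : ℝ) * ((crossZ x0 x1 b : ℤ) : ℝ) := by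
    exact_mod_cast expand A x0 x1 x2 a b
  rw [e]
  refine (abs_add_three _ _ _).trans ?_
  rw [abs_mul, abs_mul, abs_mul]
  have hN0 : 0 ≤ N0 := (abs_nonneg _).trans h0
  have hN1 : 0 ≤ N1 := (abs_nonneg _).trans h1
  have hN2 : 0 ≤ N2 := (abs_nonneg _).trans h2
  exact add_le_add (add_le_add
    (mul_le_mul h0 (cross_le _ _ _) (abs_nonneg _) hN0)
    (mul_le_mul h1 (cross_le _ _ _) (abs_nonneg _) hN1))
    (mul_le_mul h2 (cross_le _ _ _) (abs_nonneg _) hN2)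

/-- cross products of images -/
theorem cross_dvd (A : MZ) (x y : VZ) {d : ℤ} (h : ∀ i, d ∣ crossZ x y i) (i : Fin 3) :
    d ∣ crossZ (A.mulVec x) (A.mulVec y) i := by
  obtain ⟨k0, h0⟩ := h 0
  obtain ⟨k1, h1⟩ := h 1
  obtain ⟨k2, h2⟩ := h 2
  simp only [crossZ, Matrix.cons_val_zero, Matrix.cons_val_one, Matrix.cons_val] at h0 h1 h2
  simp only [crossZ, Matrix.mulVec, dotProduct, Fin.sum_univ_three]
  fin_cases i
  · refine ⟨(A 1 1 * A 2 2 - A 1 2 * A 2 1) * k0 + (A 1 2 * A 2 0 - A 1 0 * A 2 2) * k1 +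
      (A 1 0 * A 2 1 - A 1 1 * A 2 0) * k2, ?_⟩
    simp
    linear_combination (A 1 1 * A 2 2 - A 1 2 * A 2 1) * h0 +
      (A 1 2 * A 2 0 - A 1 0 * A 2 2) * h1 + (A 1 0 * A 2 1 - A 1 1 * A 2 0) * h2
  · refine ⟨(A 2 1 * A 0 2 - A 2 2 * A 0 1) * k0 + (A 2 2 * A 0 0 - A 2 0 * A 0 2) * k1 +
      (A 2 0 * A 0 1 - A 2 1 * A 0 0) * k2, ?_⟩
    simp
    linear_combination (A 2 1 * A 0 2 - A 2 2 * A 0 1) * h0 +
      (A 2 2 * A 0 0 - A 2 0 * A 0 2) * h1 + (A 2 0 * A 0 1 - A 2 1 * A 0 0) * h2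
  · refine ⟨(A 0 1 * A 1 2 - A 0 2 * A 1 1) * k0 + (A 0 2 * A 1 0 - A 0 0 * A 1 2) * k1 +
      (A 0 0 * A 1 1 - A 0 1 * A 1 0) * k2, ?_⟩
    simp
    linear_combination (A 0 1 * A 1 2 - A 0 2 * A 1 1) * h0 +
      (A 0 2 * A 1 0 - A 0 0 * A 1 2) * h1 + (A 0 0 * A 1 1 - A 0 1 * A 1 0) * h2

theorem gcd3_cross_le (A : MZ) (x y : VZ) :
    gcd3 (crossZ x y) ∣ gcd3 (crossZ (A.mulVec x) (A.mulVec y)) :=
  dvd_gcd3 (cross_dvd A x y (gcd3_dvd _))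

theorem gcd3_cross_mulZ (γ : GZ) (x y : VZ) :
    gcd3 (crossZ (mulZ γ x) (mulZ γ y)) = gcd3 (crossZ x y) := by
  have h1 := gcd3_cross_le (γ : MZ) x y
  have h2 := gcd3_cross_le ((γ⁻¹ : GZ) : MZ) (mulZ γ x) (mulZ γ y)
  have e : ∀ z : VZ, ((γ⁻¹ : GZ) : MZ).mulVec (mulZ γ z) = z := by
    intro z
    have := mulZ_mul γ⁻¹ γ z
    rw [inv_mul_cancel, mulZ_one] at this
    exact this.symm
  rw [e, e] at h2
  exact Int.dvd_antisymm (gcd3_nonneg _) (gcd3_nonneg _) h2 h1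

theorem gcd3_smul_unit {k : ℤ} (hk : k = 1 ∨ k = -1) (x : VZ) : gcd3 (k • x) = gcd3 x := by
  refine Int.dvd_antisymm (gcd3_nonneg _) (gcd3_nonneg _) ?_ ?_
  · refine dvd_gcd3 fun i => ?_
    have h := gcd3_dvd (k • x) i
    simp only [Pi.smul_apply, smul_eq_mul] at h
    rcases hk with rfl | rfl
    · simpa using h
    · simpa using h
  · refine dvd_gcd3 fun i => ?_
    simp only [Pi.smul_apply, smul_eq_mul]
    exact (gcd3_dvd x i).mul_left _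

theorem triple_mul (A : MZ) (x y z : VZ) :
    dotZ (crossZ (A.mulVec x) (A.mulVec y)) (A.mulVec z) = A.det * dotZ (crossZ x y) z := by
  rw [Matrix.det_fin_three]
  simp only [dotZ, crossZ, Matrix.mulVec, dotProduct, Fin.sum_univ_three,
    Matrix.cons_val_zero, Matrix.cons_val_one, Matrix.cons_val]
  ring

theorem abs_det_GZ (γ : GZ) : |Matrix.det (γ : MZ)| = 1 := by
  have h : IsUnit (Matrix.det (γ : MZ)) := (Matrix.isUnit_iff_isUnit_det _).1 γ.isUnit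
  rw [Int.isUnit_iff] at h
  rcases h with h | h <;> rw [h] <;> rfl

theorem BM : T_BM := by
  intro K s hs
  rcases s.eq_empty_or_nonempty with rfl | ⟨g, hg⟩
  · simp
  obtain ⟨B, hB⟩ : ∃ B : Finset (Fin 3 → Fin 3 → ℤ),
    B = Fintype.piFinset fun _ => Fintype.piFinset fun _ => Finset.Icc (-(K : ℤ)) K := ⟨_, rfl⟩
  have hBc : B.card = (2 * K + 1) ^ 9 := by
    rw [hB, Fintype.card_piFinset]
    simp only [Fintype.card_piFinset, Finset.prod_const, Finset.card_univ, Fintype.card_fin,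
      Int.card_Icc]
    rw [← pow_mul]
    congr 1
    omega
  rw [← hBc]
  rcases hs with hs | hs
  · refine Finset.card_le_card_of_injOn
      (fun γ : GZ => (fun i j => ((g⁻¹ * γ : GZ) : MZ) i j : Fin 3 → Fin 3 → ℤ)) ?_ ?_
    · intro γ hγ
      have : ∀ i j, ((g⁻¹ * γ : GZ) : MZ) i j ∈ Finset.Icc (-(K : ℤ)) K := by
        intro i j
        rw [Finset.mem_Icc, ← abs_le]
        exact hs g hg γ hγ i j
      rw [hB]
      simp only [Finset.mem_coe, Fintype.mem_piFinset]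
      exact this
    · intro γ _ γ' _ h
      have : g⁻¹ * γ = g⁻¹ * γ' := Units.ext h
      exact mul_left_cancel this
  · refine Finset.card_le_card_of_injOn
      (fun γ : GZ => (fun i j => ((γ * g⁻¹ : GZ) : MZ) i j : Fin 3 → Fin 3 → ℤ)) ?_ ?_
    · intro γ hγ
      have : ∀ i j, ((γ * g⁻¹ : GZ) : MZ) i j ∈ Finset.Icc (-(K : ℤ)) K := by
        intro i j
        rw [Finset.mem_Icc, ← abs_le]
        exact hs γ hγ g hg i j
      rw [hB]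
      simp only [Finset.mem_coe, Fintype.mem_piFinset]
      exact this
    · intro γ _ γ' _ h
      have : γ * g⁻¹ = γ' * g⁻¹ := Units.ext h
      exact mul_right_cancel this

end KFL
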