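import Mathlib
import Pool.Agent.H27.KF.Norms
import Pool.Agent.H27.KF.FRM

/-!
# MP_3fd637_nt : eigenvector bounds
-/

namespace KFL

open KF

theorem EV3 : T_EV3 := by
  intro m φ γ hm i
  obtain ⟨z, hz⟩ : ∃ z, z = mulZ γ (φ.v i) := ⟨_, rfl⟩
  have hzne : z ≠ 0 := by rw [hz]; exact (φ.act γ).v_ne i
  have hN : (conjZ γ φ.M).mulVec z = φ.ev i • z := by rw [hz]; exact (φ.act γ).eig i
  obtain ⟨k, _, hk⟩ := Finset.exists_max_image (Finset.univ : Finset (Fin 3)) (fun k => |z k|)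
    ⟨0, Finset.mem_univ _⟩
  have hk0 : 0 < |z k| := by
    rw [abs_pos]
    intro h0
    apply hzne
    funext j
    have := hk j (Finset.mem_univ _)
    rw [h0, abs_zero] at this
    exact abs_eq_zero.1 (le_antisymm this (abs_nonneg _))
  have h1 := congrFun hN k
  simp only [Matrix.mulVec, dotProduct, Pi.smul_apply, smul_eq_mul] at h1
  have h2 : |φ.ev i| * |z k| ≤ (m : ℤ) * |z k| := by
    rw [← abs_mul, ← h1]
    refine (Finset.abs_sum_le_sum_abs _ _).trans ?_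
    have h3 : ∑ j, |conjZ γ φ.M k j * z j| ≤ ∑ j, |conjZ γ φ.M k j| * |z k| := by
      refine Finset.sum_le_sum fun j _ => ?_
      rw [abs_mul]
      exact mul_le_mul_of_nonneg_left (hk j (Finset.mem_univ _)) (abs_nonneg _)
    refine h3.trans ?_
    rw [← Finset.sum_mul]
    refine mul_le_mul_of_nonneg_right ?_ (abs_nonneg _)
    have h4 : ∑ j, |conjZ γ φ.M k j| ≤ ∑ a, ∑ j, |conjZ γ φ.M a j| :=
      Finset.single_le_sum (f := fun a => ∑ j, |conjZ γ φ.M a j|)
        (fun a _ => Finset.sum_nonneg fun j _ => abs_nonneg _) (Finset.mem_univ k)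
    refine h4.trans ?_
    have h5 : ((l1 (n := 2) (conjZ γ φ.M) : ℕ) : ℤ) = ∑ a, ∑ j, |conjZ γ φ.M a j| := by
      rw [l1]
      push_cast
      rfl
    rw [← h5]
    exact_mod_cast hm
  exact le_of_mul_le_mul_right h2 hk0

theorem ang_triple {c : ℝ} {φ : Frame} (h : φ.Ang c) :
    c * (nz (φ.v 0) * nz (φ.v 1) * nz (φ.v 2)) ≤
      |((dotZ (crossZ (φ.v 0) (φ.v 1)) (φ.v 2) : ℤ) : ℝ)| := by
  rw [← det_Rm]
  exact h

theorem EV2 : T_EV2 := by
  intro c hc
  refine ⟨3 / c, fun m φ hm hA hE i j => ?_⟩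
  have hb : ∀ k, |(((φ.M.mulVec (φ.v k)) i : ℤ) : ℝ)| ≤ m * nz (φ.v k) := by
    intro k
    rw [φ.eig k]
    simp only [Pi.smul_apply, smul_eq_mul]
    push_cast
    rw [abs_mul]
    have h1 : |((φ.ev k : ℤ) : ℝ)| ≤ m := by
      have := hE k
      rw [← Int.cast_abs]
      exact_mod_cast this
    exact mul_le_mul h1 (abs_le_nz _ _) (abs_nonneg _) (by positivity)
  have h1 := expand_le φ.M (φ.v 0) (φ.v 1) (φ.v 2) i j (hb 0) (hb 1) (hb 2)
  have h2 := ang_triple hA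
  have hD : 0 < |((dotZ (crossZ (φ.v 0) (φ.v 1)) (φ.v 2) : ℤ) : ℝ)| := by
    rw [abs_pos]
    exact_mod_cast triple_ne φ
  have h3 : |((dotZ (crossZ (φ.v 0) (φ.v 1)) (φ.v 2) : ℤ) : ℝ)| * |((φ.M i j : ℤ) : ℝ)| ≤
      |((dotZ (crossZ (φ.v 0) (φ.v 1)) (φ.v 2) : ℤ) : ℝ)| * (3 / c * m) := by
    refine h1.trans ?_
    have h4 : m * nz (φ.v 0) * (nz (φ.v 1) * nz (φ.v 2)) +
        m * nz (φ.v 1) * (nz (φ.v 2) * nz (φ.v 0)) + m * nz (φ.v 2) * (nz (φ.v 0) * nz (φ.v 1)) =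
        (3 * m / c) * (c * (nz (φ.v 0) * nz (φ.v 1) * nz (φ.v 2))) := by
      field_simp
      ring
    rw [h4]
    have h5 : (0 : ℝ) ≤ 3 * m / c := by positivity
    calc (3 * m / c) * (c * (nz (φ.v 0) * nz (φ.v 1) * nz (φ.v 2)))
        ≤ (3 * m / c) * |((dotZ (crossZ (φ.v 0) (φ.v 1)) (φ.v 2) : ℤ) : ℝ)| :=
          mul_le_mul_of_nonneg_left h2 h5
      _ = _ := by ring
  exact le_of_mul_le_mul_left h3 hD

/-- core of EV1 -/
theorem ev_core {N : MZ} {B : ℝ} (hN : ∀ i j, |((N i j : ℤ) : ℝ)| ≤ B) {v : VZ} (hv : Prim v)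
    (h0 : N.mulVec v = 0) (hm : ∃ a b i j, N a i * N b j - N a j * N b i ≠ 0) :
    nz v ≤ 4 * B ^ 2 := by
  obtain ⟨a, b, i, j, hij⟩ := hm
  obtain ⟨ra, hra⟩ : ∃ ra : VZ, ra = fun k => N a k := ⟨_, rfl⟩
  obtain ⟨rb, hrb⟩ : ∃ rb : VZ, rb = fun k => N b k := ⟨_, rfl⟩
  have ha0 : ra 0 * v 0 + ra 1 * v 1 + ra 2 * v 2 = 0 := by
    have := congrFun h0 a
    simp only [Matrix.mulVec, dotProduct, Fin.sum_univ_three, Pi.zero_apply] at this
    rw [hra]
    exact this
  have hb0 : rb 0 * v 0 + rb 1 * v 1 + rb 2 * v 2 = 0 := by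
    have := congrFun h0 b
    simp only [Matrix.mulVec, dotProduct, Fin.sum_univ_three, Pi.zero_apply] at this
    rw [hrb]
    exact this
  have hc : crossZ v (crossZ ra rb) = 0 := by
    simp only [crossZ, Matrix.cons_val_zero, Matrix.cons_val_one, Matrix.cons_val]
    funext k
    fin_cases k
    · simp
      linear_combination ra 0 * hb0 - rb 0 * ha0
    · simp
      linear_combination ra 1 * hb0 - rb 1 * ha0
    · simp
      linear_combination ra 2 * hb0 - rb 2 * ha0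
  have hne : crossZ ra rb ≠ 0 := by
    intro h
    have e0 := congrFun h 0
    have e1 := congrFun h 1
    have e2 := congrFun h 2
    simp only [crossZ, Matrix.cons_val_zero, Matrix.cons_val_one, Matrix.cons_val,
      Pi.zero_apply] at e0 e1 e2
    apply hij
    have h1 : N a i * N b j - N a j * N b i = ra i * rb j - ra j * rb i := by rw [hra, hrb]
    rw [h1]
    fin_cases i <;> fin_cases j <;> simp <;> linarith
  obtain ⟨u, hu⟩ := prim_bezout hv
  have hk : ∀ l, crossZ ra rb l = dotZ u (crossZ ra rb) * v l := by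
    intro l
    have := minors (d := 0) (x := v) (y := crossZ ra rb) (u := u) (by intro i; rw [hc]; simp) hu l
    rw [zero_dvd_iff] at this
    linarith
  have hkne : dotZ u (crossZ ra rb) ≠ 0 := by
    intro h
    apply hne
    funext l
    rw [hk l, h, zero_mul]
    rfl
  have hB : 0 ≤ B := (abs_nonneg _).trans (hN 0 0)
  have hcb : ∀ l, |((crossZ ra rb l : ℤ) : ℝ)| ≤ 2 * B ^ 2 := by
    have hab : ∀ p q, |((ra p : ℤ) : ℝ) * ((rb q : ℤ) : ℝ)| ≤ B ^ 2 := by
      intro p q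
      rw [abs_mul, sq, hra, hrb]
      exact mul_le_mul (hN a p) (hN b q) (abs_nonneg _) hB
    have hgen : ∀ p q, |((ra p : ℤ) : ℝ) * ((rb q : ℤ) : ℝ) - ((ra q : ℤ) : ℝ) * ((rb p : ℤ) : ℝ)|
        ≤ 2 * B ^ 2 := by
      intro p q
      refine (abs_sub _ _).trans ?_
      have := hab p q
      have := hab q p
      linarith
    intro l
    simp only [crossZ]
    fin_cases l
    · have := hgen 1 2
      simpa using this
    · have := hgen 2 0
      simpa using this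
    · have := hgen 0 1
      simpa using this
  have hvb : ∀ l, |((v l : ℤ) : ℝ)| ≤ 2 * B ^ 2 := by
    intro l
    refine le_trans ?_ (hcb l)
    rw [hk l]
    push_cast
    rw [abs_mul]
    have h1 : (1 : ℝ) ≤ |((dotZ u (crossZ ra rb) : ℤ) : ℝ)| := by
      exact_mod_cast Int.one_le_abs hkne
    exact le_mul_of_one_le_left (abs_nonneg _) h1
  have := nz_le_of_coords hvb
  linarith

/-- the matrix `M - ev i` has a nonzero `2 × 2` minor -/
theorem minor_ne (φ : Frame) (i : Fin 3) :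
    ∃ a b p q, (φ.M - Matrix.scalar (Fin 3) (φ.ev i)) a p * (φ.M - Matrix.scalar (Fin 3) (φ.ev i)) b q -
      (φ.M - Matrix.scalar (Fin 3) (φ.ev i)) a q * (φ.M - Matrix.scalar (Fin 3) (φ.ev i)) b p ≠ 0 := by
  obtain ⟨N, hN⟩ : ∃ N, N = φ.M - Matrix.scalar (Fin 3) (φ.ev i) := ⟨_, rfl⟩
  rw [← hN]
  by_contra hcon
  push Not at hcon
  have hNv : ∀ j, N.mulVec (φ.v j) = (φ.ev j - φ.ev i) • φ.v j := by
    intro j
    rw [hN, Matrix.sub_mulVec, Matrix.scalar_apply, Matrix.diagonal_const_mulVec, φ.eig j, sub_smul]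
  -- all images are parallel
  have hpar : ∀ x y : VZ, crossZ (N.mulVec x) (N.mulVec y) = 0 := by
    intro x y
    have hm : ∀ a b, (N.mulVec x) a * (N.mulVec y) b - (N.mulVec x) b * (N.mulVec y) a = 0 := by
      intro a b
      simp only [Matrix.mulVec, dotProduct, Fin.sum_univ_three]
      linear_combination (x 0 * y 1 - x 1 * y 0) * hcon a b 0 1 +
        (x 1 * y 2 - x 2 * y 1) * hcon a b 1 2 + (x 0 * y 2 - x 2 * y 0) * hcon a b 0 2
    funext k
    fin_cases k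
    · exact hm 1 2
    · exact hm 2 0
    · exact hm 0 1
  obtain ⟨j, k, hj, hk, hjk⟩ : ∃ j k : Fin 3, j ≠ i ∧ k ≠ i ∧
      crossZ (φ.v j) (φ.v k) ≠ 0 := by
    have ht := triple_ne φ
    fin_cases i
    · refine ⟨1, 2, by decide, by decide, fun h => ht ?_⟩
      have : dotZ (crossZ (φ.v 0) (φ.v 1)) (φ.v 2) = dotZ (crossZ (φ.v 1) (φ.v 2)) (φ.v 0) := by
        simp only [dotZ, crossZ, Matrix.cons_val_zero, Matrix.cons_val_one, Matrix.cons_val]
        ring
      rw [this, h]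
      simp [dotZ]
    · refine ⟨0, 2, by decide, by decide, fun h => ht ?_⟩
      have : dotZ (crossZ (φ.v 0) (φ.v 1)) (φ.v 2) = -dotZ (crossZ (φ.v 0) (φ.v 2)) (φ.v 1) := by
        simp only [dotZ, crossZ, Matrix.cons_val_zero, Matrix.cons_val_one, Matrix.cons_val]
        ring
      rw [this, h]
      simp [dotZ]
    · refine ⟨0, 1, by decide, by decide, fun h => ht ?_⟩
      rw [h]
      simp [dotZ]
  have h1 := hpar (φ.v j) (φ.v k)
  rw [hNv, hNv] at h1
  have hej : φ.ev j - φ.ev i ≠ 0 := sub_ne_zero.2 fun h => hj (φ.inj h)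
  have hek : φ.ev k - φ.ev i ≠ 0 := sub_ne_zero.2 fun h => hk (φ.inj h)
  apply hjk
  have h2 : crossZ ((φ.ev j - φ.ev i) • φ.v j) ((φ.ev k - φ.ev i) • φ.v k) =
      ((φ.ev j - φ.ev i) * (φ.ev k - φ.ev i)) • crossZ (φ.v j) (φ.v k) := by
    funext l
    fin_cases l <;> simp [crossZ] <;> ring
  rw [h2] at h1
  exact (smul_eq_zero.1 h1).resolve_left (mul_ne_zero hej hek)

theorem ev_le {m : ℝ} {φ : Frame} (h : ∀ i j, |((φ.M i j : ℤ) : ℝ)| ≤ m) (i : Fin 3) :
    |((φ.ev i : ℤ) : ℝ)| ≤ 3 * m := by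
  obtain ⟨k, _, hk⟩ := Finset.exists_max_image (Finset.univ : Finset (Fin 3))
    (fun k => |((φ.v i k : ℤ) : ℝ)|) ⟨0, Finset.mem_univ _⟩
  have hk0 : 0 < |((φ.v i k : ℤ) : ℝ)| := by
    rw [abs_pos]
    intro h0
    apply φ.v_ne i
    funext j
    have := hk j (Finset.mem_univ _)
    rw [h0, abs_zero] at this
    have := abs_eq_zero.1 (le_antisymm this (abs_nonneg _))
    exact_mod_cast this
  have h1 := congrFun (φ.eig i) k
  simp only [Matrix.mulVec, dotProduct, Pi.smul_apply, smul_eq_mul] at h1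
  have h1' : ∑ j, ((φ.M k j : ℤ) : ℝ) * ((φ.v i j : ℤ) : ℝ) =
      ((φ.ev i : ℤ) : ℝ) * ((φ.v i k : ℤ) : ℝ) := by exact_mod_cast h1
  have h2 : |((φ.ev i : ℤ) : ℝ)| * |((φ.v i k : ℤ) : ℝ)| ≤ 3 * m * |((φ.v i k : ℤ) : ℝ)| := by
    rw [← abs_mul, ← h1']
    refine (Finset.abs_sum_le_sum_abs _ _).trans ?_
    have h3 : ∀ j ∈ (Finset.univ : Finset (Fin 3)), |((φ.M k j : ℤ) : ℝ) * ((φ.v i j : ℤ) : ℝ)| ≤
        m * |((φ.v i k : ℤ) : ℝ)| := by
      intro j _
      rw [abs_mul]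
      exact mul_le_mul (h k j) (hk j (Finset.mem_univ _)) (abs_nonneg _)
        ((abs_nonneg _).trans (h k j))
    refine (Finset.sum_le_card_nsmul _ _ _ h3).trans (le_of_eq ?_)
    rw [Finset.card_univ, Fintype.card_fin, nsmul_eq_mul]
    push_cast
    ring
  exact le_of_mul_le_mul_right h2 hk0

theorem EV1 : T_EV1 := by
  refine ⟨64, fun m φ hm hM => ?_⟩
  have hent : ∀ i a b, |(((φ.M - Matrix.scalar (Fin 3) (φ.ev i)) a b : ℤ) : ℝ)| ≤ 4 * m := by
    intro i a b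
    rw [Matrix.sub_apply, Matrix.scalar_apply, Matrix.diagonal_apply]
    have h1 := hM a b
    have h2 := ev_le hM i
    split_ifs
    · push_cast
      refine (abs_sub _ _).trans ?_
      linarith
    · rw [sub_zero]
      linarith
  refine ⟨fun i => ?_, ?_⟩
  · have h0 : (φ.M - Matrix.scalar (Fin 3) (φ.ev i)).mulVec (φ.v i) = 0 := by
      rw [Matrix.sub_mulVec, Matrix.scalar_apply, Matrix.diagonal_const_mulVec, φ.eig i, sub_self]
    have := ev_core (hent i) (φ.prim i) h0 (minor_ne φ i)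
    linarith [this]
  · have h0 : (φ.M - Matrix.scalar (Fin 3) (φ.ev 2)).transpose.mulVec φ.w = 0 := by
      rw [Matrix.transpose_sub, Matrix.sub_mulVec, (W0 φ).2.2.2.2.2.1, Matrix.scalar_apply,
        Matrix.diagonal_transpose, Matrix.diagonal_const_mulVec, sub_self]
    have hmin : ∃ a b p q, (φ.M - Matrix.scalar (Fin 3) (φ.ev 2)).transpose a p *
        (φ.M - Matrix.scalar (Fin 3) (φ.ev 2)).transpose b q -
        (φ.M - Matrix.scalar (Fin 3) (φ.ev 2)).transpose a q *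
        (φ.M - Matrix.scalar (Fin 3) (φ.ev 2)).transpose b p ≠ 0 := by
      obtain ⟨a, b, p, q, h⟩ := minor_ne φ 2
      refine ⟨p, q, a, b, ?_⟩
      simp only [Matrix.transpose_apply]
      intro h'
      apply h
      linear_combination h'
    have := ev_core (N := (φ.M - Matrix.scalar (Fin 3) (φ.ev 2)).transpose) (B := 4 * m)
      (fun a b => hent 2 b a) (w_prim φ) h0 hmin
    linarith [this]

end KFL
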