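import Mathlib
import Pool.Agent.H27.KF.EV

/-!
# MP_3fd637_nt : the core of the box count
-/

namespace KFL

open KF

/-- frames with conjugate matrices and the same eigenvalues: the quotient maps the eigenvectors to
the eigenvectors, up to sign -/
theorem quot_eig {φ ψ : Frame} {γ γ' : GZ} (h : conjZ γ φ.M = conjZ γ' ψ.M) (he : φ.ev = ψ.ev)
    (k : Fin 3) : mulZ (γ⁻¹ * γ') (ψ.v k) = φ.v k ∨ mulZ (γ⁻¹ * γ') (ψ.v k) = -φ.v k := by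
  obtain ⟨σ, hσ⟩ := SGN (φ.act γ) (ψ.act γ') h
  have h1 : σ k = k := by
    have h2 := (hσ k).1
    have h3 : ψ.ev k = φ.ev (σ k) := h2
    rw [← he] at h3
    exact (φ.inj h3).symm
  have h2 := (hσ k).2
  rw [h1] at h2
  have h3 : mulZ γ' (ψ.v k) = mulZ γ (φ.v k) ∨ mulZ γ' (ψ.v k) = -mulZ γ (φ.v k) := h2
  rw [mulZ_mul]
  rcases h3 with h3 | h3
  · left
    rw [h3, ← mulZ_mul, inv_mul_cancel, mulZ_one]
  · right
    rw [h3]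
    have h4 := mulZ_smul γ⁻¹ (-1) (mulZ γ (φ.v k))
    rw [neg_one_smul, neg_one_smul] at h4
    rw [h4, ← mulZ_mul, inv_mul_cancel, mulZ_one]

theorem crossZ_neg_left (x y : VZ) : crossZ (-x) y = -crossZ x y := by
  funext l
  fin_cases l <;> simp [crossZ] <;> ring

theorem crossZ_neg_right (x y : VZ) : crossZ x (-y) = -crossZ x y := by
  funext l
  fin_cases l <;> simp [crossZ] <;> ring

theorem gcd3_neg (x : VZ) : gcd3 (-x) = gcd3 x := by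
  have := gcd3_smul_unit (Or.inr rfl : (-1 : ℤ) = 1 ∨ (-1 : ℤ) = -1) x
  rwa [neg_one_smul] at this

theorem quot_gcd {φ ψ : Frame} {γ γ' : GZ} (h : conjZ γ φ.M = conjZ γ' ψ.M) (he : φ.ev = ψ.ev) :
    gcd3 (crossZ (φ.v 0) (φ.v 1)) = gcd3 (crossZ (ψ.v 0) (ψ.v 1)) := by
  rw [← gcd3_cross_mulZ (γ⁻¹ * γ') (ψ.v 0) (ψ.v 1)]
  rcases quot_eig h he 0 with h0 | h0 <;> rcases quot_eig h he 1 with h1 | h1 <;>
    rw [h0, h1] <;> simp [crossZ_neg_left, crossZ_neg_right, gcd3_neg]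

theorem dotZ_neg_left (x y : VZ) : dotZ (-x) y = -dotZ x y := by
  simp only [dotZ, Pi.neg_apply]; ring

theorem dotZ_neg_right (x y : VZ) : dotZ x (-y) = -dotZ x y := by
  simp only [dotZ, Pi.neg_apply]; ring

theorem quot_det {φ ψ : Frame} {γ γ' : GZ} (h : conjZ γ φ.M = conjZ γ' ψ.M) (he : φ.ev = ψ.ev) :
    |dotZ (crossZ (φ.v 0) (φ.v 1)) (φ.v 2)| = |dotZ (crossZ (ψ.v 0) (ψ.v 1)) (ψ.v 2)| := by
  have h1 := triple_mul ((γ⁻¹ * γ' : GZ) : MZ) (ψ.v 0) (ψ.v 1) (ψ.v 2)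
  have h2 : |dotZ (crossZ (((γ⁻¹ * γ' : GZ) : MZ).mulVec (ψ.v 0))
      (((γ⁻¹ * γ' : GZ) : MZ).mulVec (ψ.v 1))) (((γ⁻¹ * γ' : GZ) : MZ).mulVec (ψ.v 2))| =
      |dotZ (crossZ (ψ.v 0) (ψ.v 1)) (ψ.v 2)| := by
    rw [h1, abs_mul, abs_det_GZ, one_mul]
  rw [← h2]
  have e : ∀ k, ((γ⁻¹ * γ' : GZ) : MZ).mulVec (ψ.v k) = mulZ (γ⁻¹ * γ') (ψ.v k) := fun _ => rfl
  rw [e, e, e]
  rcases quot_eig h he 0 with h0 | h0 <;> rcases quot_eig h he 1 with h1 | h1 <;>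
    rcases quot_eig h he 2 with h2 | h2 <;>
    rw [h0, h1, h2] <;>
    simp [crossZ_neg_left, crossZ_neg_right, dotZ_neg_left, dotZ_neg_right]

theorem prim_ne {x : VZ} (hx : Prim x) : x ≠ 0 := by
  intro h
  have h2 := hx 2 (by intro j; rw [h]; simp)
  rw [Int.isUnit_iff] at h2
  omega

/-- sizes -/
theorem sizes {c : ℝ} (hc : 0 < c) {φ : Frame} (hA : φ.Ang c) :
    c * (nz (φ.v 0) * nz (φ.v 1)) ≤ (gcd3 (crossZ (φ.v 0) (φ.v 1)) : ℝ) * nz φ.w ∧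
    (gcd3 (crossZ (φ.v 0) (φ.v 1)) : ℝ) * nz φ.w ≤ nz (φ.v 0) * nz (φ.v 1) ∧
    c * (nz (φ.v 0) * nz (φ.v 1) * nz (φ.v 2)) ≤
      |((dotZ (crossZ (φ.v 0) (φ.v 1)) (φ.v 2) : ℤ) : ℝ)| ∧
    |((dotZ (crossZ (φ.v 0) (φ.v 1)) (φ.v 2) : ℤ) : ℝ)| ≤
      ((gcd3 (crossZ (φ.v 0) (φ.v 1)) : ℝ) * nz φ.w) * nz (φ.v 2) := by
  have e : nz (crossZ (φ.v 0) (φ.v 1)) = (gcd3 (crossZ (φ.v 0) (φ.v 1)) : ℝ) * nz φ.w := by
    have := nz_smul (gcd3 (crossZ (φ.v 0) (φ.v 1))) φ.w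
    rw [← w_smul φ] at this
    rw [this, abs_of_nonneg]
    exact_mod_cast gcd3_nonneg _
  have h1 := nz_cross_le (φ.v 0) (φ.v 1)
  have h2 := dotZ_le (crossZ (φ.v 0) (φ.v 1)) (φ.v 2)
  rw [e] at h1 h2
  have h3 := ang_triple hA
  refine ⟨?_, h1, h3, h2⟩
  have h4 : 0 < nz (φ.v 2) := nz_pos (φ.v_ne 2)
  have h5 : c * (nz (φ.v 0) * nz (φ.v 1)) * nz (φ.v 2) ≤
      ((gcd3 (crossZ (φ.v 0) (φ.v 1)) : ℝ) * nz φ.w) * nz (φ.v 2) := by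
    refine le_trans (le_of_eq ?_) (h3.trans h2)
    ring
  exact le_of_mul_le_mul_right h5 h4

theorem BXC : T_BXC := by
  intro c hc
  refine ⟨⌈(Real.exp 1 + Real.exp 1 * Real.exp 1 / c + Real.exp 1 / c) / c⌉₊, ?_⟩
  intro φ ψ γ γ' a c' b p q hφ hψ he _ _ _ _ hA hA' h1 h2 h3 h4 i j
  have hconj : conjZ γ φ.M = conjZ γ' ψ.M := by rw [hφ, hψ, he]
  -- sizes
  obtain ⟨G, hG⟩ : ∃ G : ℝ, G = (gcd3 (crossZ (φ.v 0) (φ.v 1)) : ℝ) := ⟨_, rfl⟩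
  have hG' : (gcd3 (crossZ (ψ.v 0) (ψ.v 1)) : ℝ) = G := by rw [hG, quot_gcd hconj he]
  have hG0 : 0 < G := by rw [hG]; exact_mod_cast gcd3_pos (cross_ne φ)
  obtain ⟨Δ, hΔ⟩ : ∃ Δ : ℝ, Δ = |((dotZ (crossZ (φ.v 0) (φ.v 1)) (φ.v 2) : ℤ) : ℝ)| := ⟨_, rfl⟩
  have hΔ' : |((dotZ (crossZ (ψ.v 0) (ψ.v 1)) (ψ.v 2) : ℤ) : ℝ)| = Δ := by
    rw [hΔ]
    have := quot_det hconj he
    rw [← Int.cast_abs, ← Int.cast_abs, this]
  have hΔ0 : 0 < Δ := by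
    rw [hΔ, abs_pos]
    exact_mod_cast triple_ne φ
  obtain ⟨s1, s2, s3, s4⟩ := sizes hc hA
  obtain ⟨t1, t2, t3, t4⟩ := sizes hc hA'
  rw [← hG] at s1 s2 s4
  rw [← hΔ] at s3 s4
  rw [hG'] at t1 t2 t4
  rw [hΔ'] at t3 t4
  have b0 := nz_pos (φ.v_ne 0)
  have b1 := nz_pos (φ.v_ne 1)
  have b2 := nz_pos (φ.v_ne 2)
  have d0 := nz_pos (ψ.v_ne 0)
  have d1 := nz_pos (ψ.v_ne 1)
  have d2 := nz_pos (ψ.v_ne 2)
  have bw := nz_pos (prim_ne (w_prim φ))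
  have dw := nz_pos (prim_ne (w_prim ψ))
  have hE : Real.exp (p + 1) = Real.exp 1 * Real.exp p := by rw [← Real.exp_add]; ring_nf
  have hEq : Real.exp (q + 1) = Real.exp 1 * Real.exp q := by rw [← Real.exp_add]; ring_nf
  have he1 : 0 < Real.exp 1 := Real.exp_pos 1
  -- ratios
  have r0 : nz (φ.v 0) ≤ Real.exp 1 * nz (ψ.v 0) := by
    refine h1.2.le.trans ?_
    rw [hE]
    exact mul_le_mul_of_nonneg_left h3.1 he1.le
  have r0' : nz (ψ.v 0) ≤ Real.exp 1 * nz (φ.v 0) := by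
    refine h3.2.le.trans ?_
    rw [hE]
    exact mul_le_mul_of_nonneg_left h1.1 he1.le
  have rw0 : nz φ.w ≤ Real.exp 1 * nz ψ.w := by
    refine h2.2.le.trans ?_
    rw [hEq]
    exact mul_le_mul_of_nonneg_left h4.1 he1.le
  have rw0' : nz ψ.w ≤ Real.exp 1 * nz φ.w := by
    refine h4.2.le.trans ?_
    rw [hEq]
    exact mul_le_mul_of_nonneg_left h2.1 he1.le
  have r1 : nz (φ.v 1) ≤ Real.exp 1 * Real.exp 1 / c * nz (ψ.v 1) := by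
    have k1 : c * (nz (φ.v 0) * nz (φ.v 1)) ≤
        Real.exp 1 * Real.exp 1 * (nz (φ.v 0) * nz (ψ.v 1)) := by
      calc c * (nz (φ.v 0) * nz (φ.v 1)) ≤ G * nz φ.w := s1
        _ ≤ G * (Real.exp 1 * nz ψ.w) := mul_le_mul_of_nonneg_left rw0 hG0.le
        _ = Real.exp 1 * (G * nz ψ.w) := by ring
        _ ≤ Real.exp 1 * (nz (ψ.v 0) * nz (ψ.v 1)) := mul_le_mul_of_nonneg_left t2 he1.le
        _ ≤ Real.exp 1 * ((Real.exp 1 * nz (φ.v 0)) * nz (ψ.v 1)) := by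
            gcongr
        _ = _ := by ring
    have k2 : nz (φ.v 0) * (c * nz (φ.v 1)) ≤
        nz (φ.v 0) * (Real.exp 1 * Real.exp 1 * nz (ψ.v 1)) := by
      linarith
    have k3 := le_of_mul_le_mul_left k2 b0
    rw [div_mul_eq_mul_div, le_div_iff₀ hc]
    linarith
  have r2 : nz (φ.v 2) ≤ Real.exp 1 / c * nz (ψ.v 2) := by
    have k1 : c * (G * nz φ.w) * nz (φ.v 2) ≤ (G * nz φ.w) * (Real.exp 1 * nz (ψ.v 2)) := by
      calc c * (G * nz φ.w) * nz (φ.v 2) ≤ c * (nz (φ.v 0) * nz (φ.v 1)) * nz (φ.v 2) := by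
            gcongr
        _ = c * (nz (φ.v 0) * nz (φ.v 1) * nz (φ.v 2)) := by ring
        _ ≤ Δ := s3
        _ ≤ (G * nz ψ.w) * nz (ψ.v 2) := t4
        _ ≤ (G * (Real.exp 1 * nz φ.w)) * nz (ψ.v 2) := by gcongr
        _ = _ := by ring
    have k2 : (G * nz φ.w) * (c * nz (φ.v 2)) ≤ (G * nz φ.w) * (Real.exp 1 * nz (ψ.v 2)) := by
      linarith
    have k3 := le_of_mul_le_mul_left k2 (mul_pos hG0 bw)
    rw [div_mul_eq_mul_div, le_div_iff₀ hc]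
    linarith
  -- entries
  have hent : ∀ k, |(((((γ⁻¹ * γ' : GZ) : MZ).mulVec (ψ.v k)) i : ℤ) : ℝ)| ≤ nz (φ.v k) := by
    intro k
    have e : ((γ⁻¹ * γ' : GZ) : MZ).mulVec (ψ.v k) = mulZ (γ⁻¹ * γ') (ψ.v k) := rfl
    rw [e]
    rcases quot_eig hconj he k with h0 | h0
    · rw [h0]; exact abs_le_nz _ _
    · rw [h0, ← nz_neg]; exact abs_le_nz _ _
  have hx := expand_le ((γ⁻¹ * γ' : GZ) : MZ) (ψ.v 0) (ψ.v 1) (ψ.v 2) i j (hent 0) (hent 1)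
    (hent 2)
  rw [hΔ'] at hx
  have hfin : |((((γ⁻¹ * γ' : GZ) : MZ) i j : ℤ) : ℝ)| ≤
      (Real.exp 1 + Real.exp 1 * Real.exp 1 / c + Real.exp 1 / c) / c := by
    have k1 : Δ * |((((γ⁻¹ * γ' : GZ) : MZ) i j : ℤ) : ℝ)| ≤
        Δ * ((Real.exp 1 + Real.exp 1 * Real.exp 1 / c + Real.exp 1 / c) / c) := by
      calc Δ * |((((γ⁻¹ * γ' : GZ) : MZ) i j : ℤ) : ℝ)|
          ≤ nz (φ.v 0) * (nz (ψ.v 1) * nz (ψ.v 2)) + nz (φ.v 1) * (nz (ψ.v 2) * nz (ψ.v 0)) +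
            nz (φ.v 2) * (nz (ψ.v 0) * nz (ψ.v 1)) := hx
        _ ≤ (Real.exp 1 * nz (ψ.v 0)) * (nz (ψ.v 1) * nz (ψ.v 2)) +
            (Real.exp 1 * Real.exp 1 / c * nz (ψ.v 1)) * (nz (ψ.v 2) * nz (ψ.v 0)) +
            (Real.exp 1 / c * nz (ψ.v 2)) * (nz (ψ.v 0) * nz (ψ.v 1)) := by
            gcongr
        _ = ((Real.exp 1 + Real.exp 1 * Real.exp 1 / c + Real.exp 1 / c) / c) *
            (c * (nz (ψ.v 0) * nz (ψ.v 1) * nz (ψ.v 2))) := by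
            field_simp
        _ ≤ ((Real.exp 1 + Real.exp 1 * Real.exp 1 / c + Real.exp 1 / c) / c) * Δ := by
            refine mul_le_mul_of_nonneg_left t3 (by positivity)
        _ = _ := by ring
    exact le_of_mul_le_mul_left k1 hΔ0
  have hfin2 := hfin.trans (Nat.le_ceil _)
  rw [← Int.cast_abs] at hfin2
  exact_mod_cast hfin2

end KFL
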