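import Mathlib
import Pool.Agent.H27.KF.Base

/-!
# MP_3fd637_nt : flags, adapted bases, triangular form
-/

namespace KFL

open KF

theorem AB : T_AB := by
  intro x w hx hw hxw
  obtain ⟨y, hy⟩ := prim_bezout hx
  obtain ⟨c0, hc0⟩ := prim_bezout hw
  obtain ⟨c, hc⟩ : ∃ c : VZ, c = c0 - dotZ y c0 • x := ⟨_, rfl⟩
  have hcw : w 0 * c 0 + w 1 * c 1 + w 2 * c 2 = 1 := by
    rw [hc]
    simp only [dotZ, Pi.sub_apply, Pi.smul_apply, smul_eq_mul] at *
    linear_combination hc0 - (y 0 * c0 0 + y 1 * c0 1 + y 2 * c0 2) * hxw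
  have hcy : y 0 * c 0 + y 1 * c 1 + y 2 * c 2 = 0 := by
    rw [hc]
    simp only [dotZ, Pi.sub_apply, Pi.smul_apply, smul_eq_mul] at *
    linear_combination (-(y 0 * c0 0 + y 1 * c0 1 + y 2 * c0 2)) * hy
  simp only [dotZ] at hy hxw
  obtain ⟨A, hA⟩ : ∃ A : MZ, A = !![y 0, y 1, y 2;
    c 1 * x 2 - c 2 * x 1, c 2 * x 0 - c 0 * x 2, c 0 * x 1 - c 1 * x 0;
    w 0, w 1, w 2] := ⟨_, rfl⟩
  obtain ⟨B, hB⟩ : ∃ B : MZ, B = !![x 0, w 1 * y 2 - w 2 * y 1, c 0;
    x 1, w 2 * y 0 - w 0 * y 2, c 1;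
    x 2, w 0 * y 1 - w 1 * y 0, c 2] := ⟨_, rfl⟩
  have hAB : A * B = 1 := by
    rw [hA, hB]
    ext i j
    fin_cases i <;> fin_cases j <;>
      simp [Matrix.mul_apply, Fin.sum_univ_three, Matrix.one_apply]
    · linear_combination hy
    · ring
    · linear_combination hcy
    · ring
    · linear_combination (w 0 * c 0 + w 1 * c 1 + w 2 * c 2) * hy + hcw -
        (w 0 * x 0 + w 1 * x 1 + w 2 * x 2) * hcy
    · ring
    · linear_combination hxw
    · ring
    · linear_combination hcw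
  have hBA : B * A = 1 := mul_eq_one_comm.1 hAB
  refine ⟨⟨A, B, hAB, hBA⟩, ?_, ?_⟩
  · have h : mulZ (⟨A, B, hAB, hBA⟩ : GZ) x = A.mulVec x := rfl
    rw [h, hA]
    funext i
    fin_cases i <;> simp [Matrix.mulVec, dotProduct, Fin.sum_univ_three]
    · linear_combination hy
    · ring
    · linear_combination hxw
  · have h : (fun j => ((⟨A, B, hAB, hBA⟩ : GZ) : MZ) 2 j) = fun j => A 2 j := rfl
    rw [h, hA]
    funext j
    fin_cases j <;> simp

theorem TR2 : T_TR2 := by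
  intro φ γ h0 h2
  obtain ⟨N, hN⟩ : ∃ N, N = conjZ γ φ.M := ⟨_, rfl⟩
  have hNv : ∀ i, N.mulVec (mulZ γ (φ.v i)) = φ.ev i • mulZ γ (φ.v i) := by
    intro i
    have := (φ.act γ).eig i
    rw [hN]
    exact this
  have hcol : ∀ i, N i 0 = φ.ev 0 * (![1, 0, 0] : VZ) i := by
    intro i
    have h := congrFun (hNv 0) i
    rw [h0] at h
    simp only [Matrix.mulVec, dotProduct, Fin.sum_univ_three, Pi.smul_apply, smul_eq_mul,
      Matrix.cons_val_zero, Matrix.cons_val_one, Matrix.cons_val, mul_one, mul_zero,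
      add_zero] at h
    exact h
  -- third row
  have hrow : ∀ j, N 2 j = φ.ev 2 * (![0, 0, 1] : VZ) j := by
    have hw := (W0 φ).2.2.2.2.2.1
    have h1 : ∀ j, ((γ : MZ) * φ.M) 2 j = φ.ev 2 * (γ : MZ) 2 j := by
      intro j
      have h3 := congrFun hw j
      have h4 : ∀ k, (γ : MZ) 2 k = φ.w k := fun k => congrFun h2 k
      simp only [Matrix.mulVec, dotProduct, Fin.sum_univ_three, Pi.smul_apply, smul_eq_mul,
        Matrix.transpose_apply] at h3
      simp only [Matrix.mul_apply, Fin.sum_univ_three, h4]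
      linear_combination h3
    intro j
    have h5 : N 2 j = ∑ k, ((γ : MZ) * φ.M) 2 k * ((γ⁻¹ : GZ) : MZ) k j := by
      rw [hN, conjZ, Matrix.mul_apply]
    rw [h5]
    simp_rw [h1, mul_assoc]
    rw [← Finset.mul_sum]
    congr 1
    have h6 : (∑ k, (γ : MZ) 2 k * ((γ⁻¹ : GZ) : MZ) k j) = (1 : MZ) 2 j := by
      rw [← Matrix.mul_apply, ← Units.val_mul, mul_inv_cancel, Units.val_one]
    rw [h6]
    fin_cases j
    · simp
    · simp
    · exact Matrix.one_apply_eq _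
  have hmid : N 1 1 = φ.ev 1 := by
    obtain ⟨z, hz⟩ : ∃ z, z = mulZ γ (φ.v 1) := ⟨_, rfl⟩
    have hz2 : z 2 = 0 := by
      have h4 : ∀ k, (γ : MZ) 2 k = φ.w k := fun k => congrFun h2 k
      rw [hz, mulZ, Matrix.mulVec, dotProduct]
      simp_rw [h4]
      have := w_dot1 φ
      rw [dotZ] at this
      rw [Fin.sum_univ_three]
      exact this
    have hzne : z ≠ 0 := by
      rw [hz]
      exact (φ.act γ).v_ne 1
    have e0 := congrFun (hNv 1) 0
    have e1 := congrFun (hNv 1) 1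
    rw [← hz] at e0 e1
    simp only [Matrix.mulVec, dotProduct, Fin.sum_univ_three, Pi.smul_apply, smul_eq_mul,
      hz2, mul_zero, add_zero] at e0 e1
    have hc0 := hcol 0
    have hc1 := hcol 1
    simp only [Matrix.cons_val_zero, Matrix.cons_val_one, mul_one, mul_zero] at hc0 hc1
    rw [hc0] at e0
    rw [hc1, zero_mul, zero_add] at e1
    have hz1 : z 1 ≠ 0 := by
      intro h
      rw [h, mul_zero, add_zero] at e0
      have hne : φ.ev 0 ≠ φ.ev 1 := fun hh => by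
        have := φ.inj hh
        exact absurd this (by decide)
      have hz0 : z 0 = 0 := by
        have : (φ.ev 0 - φ.ev 1) * z 0 = 0 := by linear_combination e0
        exact (mul_eq_zero.1 this).resolve_left (sub_ne_zero.2 hne)
      apply hzne
      funext i
      fin_cases i
      · exact hz0
      · exact h
      · exact hz2
    exact mul_right_cancel₀ hz1 e1
  refine ⟨N 0 1, N 1 2, N 0 2, ?_⟩
  rw [← hN]
  have hc0 := hcol 0
  have hc1 := hcol 1
  have hc2 := hcol 2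
  have hr1 := hrow 1
  have hr2 := hrow 2
  simp only [Matrix.cons_val_zero, Matrix.cons_val_one, Matrix.cons_val, mul_one,
    mul_zero] at hc0 hc1 hc2 hr1 hr2
  ext i j
  fin_cases i <;> fin_cases j <;> simp [tri, hc0, hc1, hc2, hr1, hr2, hmid]

/-- upper unipotent integer matrices -/
def upi (p q r : ℤ) : GZ where
  val := !![1, p, r; 0, 1, q; 0, 0, 1]
  inv := !![1, -p, p * q - r; 0, 1, -q; 0, 0, 1]
  val_inv := by
    ext i j
    fin_cases i <;> fin_cases j <;>
      simp [Matrix.mul_apply, Fin.sum_univ_three, Matrix.one_apply]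
    ring
  inv_val := by
    ext i j
    fin_cases i <;> fin_cases j <;>
      simp [Matrix.mul_apply, Fin.sum_univ_three, Matrix.one_apply]
    ring

theorem conj_upi (p q r : ℤ) (l : Fin 3 → ℤ) (a c b : ℤ) :
    conjZ (upi p q r) (tri l a c b) = tri l (a + p * (l 1 - l 0)) (c + q * (l 2 - l 1))
      (b + p * c + r * (l 2 - l 0) - (a + p * (l 1 - l 0)) * q) := by
  have h : ((upi p q r : GZ) : MZ) * tri l a c b = tri l (a + p * (l 1 - l 0))
      (c + q * (l 2 - l 1)) (b + p * c + r * (l 2 - l 0) - (a + p * (l 1 - l 0)) * q) *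
        ((upi p q r : GZ) : MZ) := by
    ext i j
    fin_cases i <;> fin_cases j <;>
      simp [Matrix.mul_apply, Fin.sum_univ_three, tri, upi] <;> ring
  rw [conjZ, h, Matrix.mul_assoc, ← Units.val_mul, mul_inv_cancel, Units.val_one, Matrix.mul_one]

theorem TR : T_TR := by
  intro φ
  obtain ⟨γ₀, h0, h2⟩ := AB (φ.v 0) φ.w (φ.prim 0) (w_prim φ) (w_dot0 φ)
  obtain ⟨a, c, b, habc⟩ := TR2 φ γ₀ h0 h2
  obtain ⟨p, hp⟩ : ∃ p, p = -(a / φ.x01) := ⟨_, rfl⟩
  obtain ⟨q, hq⟩ : ∃ q, q = -(c / φ.x12) := ⟨_, rfl⟩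
  obtain ⟨r, hr⟩ : ∃ r, r = -((b + p * c - (a + p * φ.x01) * q) / φ.x02) := ⟨_, rfl⟩
  have hx01 : φ.x01 ≠ 0 := by
    intro h
    have : φ.ev 1 = φ.ev 0 := sub_eq_zero.1 h
    exact absurd (φ.inj this) (by decide)
  have hx12 : φ.x12 ≠ 0 := by
    intro h
    have : φ.ev 2 = φ.ev 1 := sub_eq_zero.1 h
    exact absurd (φ.inj this) (by decide)
  have hx02 : φ.x02 ≠ 0 := by
    intro h
    have : φ.ev 2 = φ.ev 0 := sub_eq_zero.1 h
    exact absurd (φ.inj this) (by decide)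
  refine ⟨upi p q r * γ₀, a + p * φ.x01, c + q * φ.x12,
    b + p * c + r * φ.x02 - (a + p * φ.x01) * q, ?_, ?_, ?_, ?_, ?_, ?_⟩
  · rw [conjZ_mul, habc, conj_upi]
    rfl
  · have : a + p * φ.x01 = a % φ.x01 := by
      rw [hp, Int.emod_def]; ring
    rw [this]
    exact ⟨Int.emod_nonneg _ hx01, Int.emod_lt_abs _ hx01⟩
  · have : c + q * φ.x12 = c % φ.x12 := by
      rw [hq, Int.emod_def]; ring
    rw [this]
    exact ⟨Int.emod_nonneg _ hx12, Int.emod_lt_abs _ hx12⟩
  · have : b + p * c + r * φ.x02 - (a + p * φ.x01) * q =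
        (b + p * c - (a + p * φ.x01) * q) % φ.x02 := by
      rw [hr, Int.emod_def]; ring
    rw [this]
    exact ⟨Int.emod_nonneg _ hx02, Int.emod_lt_abs _ hx02⟩
  · rw [mulZ_mul, h0]
    funext i
    fin_cases i <;> simp [mulZ, upi, Matrix.mulVec, dotProduct, Fin.sum_univ_three]
  · rw [← h2]
    funext j
    rw [Units.val_mul, Matrix.mul_apply]
    simp [upi, Fin.sum_univ_three]

end KFL
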