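import Mathlib
import Pool.Agent.H27.KF.BXC
import Pool.Agent.H27.KF.FLG

/-!
# MP_3fd637_nt : box count and L2
-/

namespace KFL

open KF

theorem card_same_M (s : Finset Frame) (M : MZ) (h : ∀ φ ∈ s, φ.M = M) : s.card ≤ 48 := by
  rcases s.eq_empty_or_nonempty with rfl | ⟨φ, hφ⟩
  · simp
  obtain ⟨h1, h2⟩ := F48 φ
  rw [← h2, ← Set.ncard_coe_finset]
  refine Set.ncard_le_ncard ?_ h1
  intro ψ hψ
  have := h ψ hψ
  change ψ.M = φ.M
  rw [this, h φ hφ]

theorem BX : T_BX := by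
  classical
  intro c hc
  obtain ⟨K, hK⟩ := BXC c hc
  refine ⟨48 * (2 * K + 1) ^ 9, fun l p q s hs => ?_⟩
  choose g a c' b htri ha hc' hb hg0 hg2 using TR
  -- fibres
  have hfib : ∀ t ∈ s.image (fun φ => (a φ, c' φ, b φ)),
      (s.filter fun φ => (a φ, c' φ, b φ) = t).card ≤ 48 * (2 * K + 1) ^ 9 := by
    intro t _
    obtain ⟨F, hF⟩ : ∃ F, F = s.filter fun φ => (a φ, c' φ, b φ) = t := ⟨_, rfl⟩
    rw [← hF]
    have hFm : ∀ φ ∈ F, φ ∈ s ∧ a φ = t.1 ∧ c' φ = t.2.1 ∧ b φ = t.2.2 := by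
      intro φ hφ
      rw [hF, Finset.mem_filter] at hφ
      refine ⟨hφ.1, ?_, ?_, ?_⟩
      · rw [← hφ.2]
      · rw [← hφ.2]
      · rw [← hφ.2]
    have h1 : F.card ≤ 48 * (F.image g).card := by
      refine Finset.card_le_mul_card_image _ _ fun γ _ => ?_
      rcases (F.filter fun φ => g φ = γ).eq_empty_or_nonempty with h0 | ⟨φ, hφ⟩
      · rw [h0]; simp
      refine card_same_M _ φ.M fun ψ hψ => ?_
      rw [Finset.mem_filter] at hφ hψ
      have e1 := htri φ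
      have e2 := htri ψ
      obtain ⟨k1, k2, k3, k4⟩ := hFm φ hφ.1
      obtain ⟨j1, j2, j3, j4⟩ := hFm ψ hψ.1
      rw [hφ.2, (hs φ k1).1, k2, k3, k4] at e1
      rw [hψ.2, (hs ψ j1).1, j2, j3, j4] at e2
      have e3 : conjZ γ ψ.M = conjZ γ φ.M := by rw [e1, e2]
      have e4 := congrArg (conjZ γ⁻¹) e3
      rw [← conjZ_mul, ← conjZ_mul, inv_mul_cancel, conjZ_one, conjZ_one] at e4
      exact e4
    have h2 : (F.image g).card ≤ (2 * K + 1) ^ 9 := by
      refine BM K _ (Or.inl ?_)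
      intro γ hγ γ' hγ'
      obtain ⟨φ, hφ, rfl⟩ := Finset.mem_image.1 hγ
      obtain ⟨ψ, hψ, rfl⟩ := Finset.mem_image.1 hγ'
      obtain ⟨k1, k2, k3, k4⟩ := hFm φ hφ
      obtain ⟨j1, j2, j3, j4⟩ := hFm ψ hψ
      obtain ⟨m1, m2, m3, m4⟩ := hs φ k1
      obtain ⟨n1, n2, n3, n4⟩ := hs ψ j1
      have e1 := htri φ
      have e2 := htri ψ
      rw [k2, k3, k4] at e1
      rw [j2, j3, j4] at e2
      exact hK φ ψ (g φ) (g ψ) t.1 t.2.1 t.2.2 p q e1 e2 (by rw [m1, n1]) (hg0 φ) (hg0 ψ)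
        (hg2 φ) (hg2 ψ) m2 n2 m3 m4 n3 n4
    exact h1.trans (Nat.mul_le_mul_left _ h2)
  have h3 := Finset.card_le_mul_card_image s _ hfib
  have h4 : ((s.image (fun φ => (a φ, c' φ, b φ))).card : ℝ) ≤ gp l := by
    have hsub : s.image (fun φ => (a φ, c' φ, b φ)) ⊆
        Finset.Ico 0 |l 1 - l 0| ×ˢ (Finset.Ico 0 |l 2 - l 1| ×ˢ Finset.Ico 0 |l 2 - l 0|) := by
      intro t ht
      obtain ⟨φ, hφ, rfl⟩ := Finset.mem_image.1 ht
      have he := (hs φ hφ).1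
      have h1 := ha φ
      have h2 := hc' φ
      have h3 := hb φ
      unfold Frame.x01 at h1
      unfold Frame.x12 at h2
      unfold Frame.x02 at h3
      rw [he] at h1 h2 h3
      simp only [Finset.mem_product, Finset.mem_Ico]
      exact ⟨h1, h2, h3⟩
    have h5 := Finset.card_le_card hsub
    rw [Finset.card_product, Finset.card_product, Int.card_Ico, Int.card_Ico, Int.card_Ico] at h5
    have e : ∀ x : ℤ, (((|x| - 0).toNat : ℕ) : ℝ) = |((x : ℤ) : ℝ)| := by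
      intro x
      rw [sub_zero, ← Int.cast_abs]
      have := Int.toNat_of_nonneg (abs_nonneg x)
      exact_mod_cast this
    unfold gp
    rw [← e, ← e, ← e, mul_assoc]
    exact_mod_cast h5
  have h5 : (s.card : ℝ) ≤ (48 * (2 * K + 1) ^ 9) *
      ((s.image (fun φ => (a φ, c' φ, b φ))).card : ℝ) := by exact_mod_cast h3
  exact h5.trans (mul_le_mul_of_nonneg_left h4 (by positivity))

theorem gp_nonneg (l : Fin 3 → ℤ) : 0 ≤ gp l := by unfold gp; positivity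

theorem L2 : T_L2 := by
  classical
  intro c hc
  obtain ⟨C0, hC0⟩ := BX c hc
  obtain ⟨C1, hC1⟩ := EV1
  obtain ⟨C2, hC2⟩ := EV2 c hc
  obtain ⟨B2, hB2⟩ : ∃ B2, B2 = max C2 1 := ⟨_, rfl⟩
  obtain ⟨B1, hB1⟩ : ∃ B1, B1 = max C1 1 := ⟨_, rfl⟩
  obtain ⟨B0, hB0⟩ : ∃ B0, B0 = max C0 0 := ⟨_, rfl⟩
  have hB2' : 1 ≤ B2 := by rw [hB2]; exact le_max_right _ _
  have hB1' : 1 ≤ B1 := by rw [hB1]; exact le_max_right _ _
  have hB0' : 0 ≤ B0 := by rw [hB0]; exact le_max_right _ _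
  obtain ⟨C3, hC3⟩ : ∃ C3, C3 = 2 * Real.log (B1 * B2 ^ 2) + 2 := ⟨_, rfl⟩
  have hlogB : 0 ≤ Real.log (B1 * B2 ^ 2) := Real.log_nonneg (by nlinarith)
  refine ⟨B0 * (C3 + 2) ^ 2, fun m l s hm hs => ?_⟩
  have hm1 : (1 : ℝ) ≤ m := by exact_mod_cast (by omega : 1 ≤ m)
  have hm2 : (2 : ℝ) ≤ m := by exact_mod_cast hm
  have hlog : 1 / 2 ≤ Real.log m := by
    have h1 := Real.log_two_gt_d9
    have h2 := Real.log_le_log (by norm_num) hm2
    linarith
  have hheight : ∀ φ ∈ s, Real.log (nz (φ.v 0)) ≤ C3 * Real.log m ∧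
      Real.log (nz φ.w) ≤ C3 * Real.log m := by
    intro φ hφ
    obtain ⟨_, h2, h3⟩ := hs φ hφ
    have h4 := hC2 m φ (by omega) h2 h3
    have h5 : ∀ i j, |((φ.M i j : ℤ) : ℝ)| ≤ B2 * m := by
      intro i j
      refine (h4 i j).trans ?_
      rw [hB2]
      exact mul_le_mul_of_nonneg_right (le_max_left _ _) (by linarith)
    obtain ⟨h6, h7⟩ := hC1 (B2 * m) φ (by nlinarith) h5
    have h8 : C1 * (B2 * m) ^ 2 ≤ B1 * (B2 * m) ^ 2 := by
      rw [hB1]
      exact mul_le_mul_of_nonneg_right (le_max_left _ _) (sq_nonneg _)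
    have h9 : Real.log (B1 * (B2 * m) ^ 2) ≤ C3 * Real.log m := by
      have e : B1 * (B2 * m) ^ 2 = (B1 * B2 ^ 2) * (m : ℝ) ^ 2 := by ring
      rw [e, Real.log_mul (by positivity) (by positivity), Real.log_pow, hC3]
      push_cast
      nlinarith
    constructor
    · refine le_trans (Real.log_le_log (nz_pos (φ.v_ne 0)) ((h6 0).trans h8)) h9
    · refine le_trans (Real.log_le_log (nz_pos (prim_ne (w_prim φ))) (h7.trans h8)) h9
  -- boxes
  obtain ⟨f, hf⟩ : ∃ f : Frame → ℕ × ℕ,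
    f = fun φ => (⌊Real.log (nz (φ.v 0))⌋₊, ⌊Real.log (nz φ.w)⌋₊) := ⟨_, rfl⟩
  obtain ⟨P, hP⟩ : ∃ P : ℕ, P = ⌊C3 * Real.log m⌋₊ := ⟨_, rfl⟩
  have hC3m : 0 ≤ C3 * Real.log m := by
    have : 0 ≤ C3 := by rw [hC3]; linarith
    exact mul_nonneg this (by linarith)
  have hfib : ∀ t ∈ s.image f, (s.filter fun φ => f φ = t).card ≤ ⌊B0 * gp l⌋₊ := by
    intro t _
    have h1 := hC0 l t.1 t.2 (s.filter fun φ => f φ = t) ?_
    · refine Nat.le_floor (h1.trans ?_)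
      rw [hB0]
      exact mul_le_mul_of_nonneg_right (le_max_left _ _) (gp_nonneg l)
    · intro φ hφ
      rw [Finset.mem_filter] at hφ
      obtain ⟨hφs, hft⟩ := hφ
      obtain ⟨h2, h3, _⟩ := hs φ hφs
      have hbox : ∀ x : ℝ, 1 ≤ x → Real.exp ⌊Real.log x⌋₊ ≤ x ∧ x < Real.exp (⌊Real.log x⌋₊ + 1) := by
        intro x hx
        have hx0 : 0 < x := by linarith
        constructor
        · calc Real.exp ⌊Real.log x⌋₊ ≤ Real.exp (Real.log x) :=
              Real.exp_le_exp.2 (Nat.floor_le (Real.log_nonneg hx))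
            _ = x := Real.exp_log hx0
        · calc x = Real.exp (Real.log x) := (Real.exp_log hx0).symm
            _ < _ := Real.exp_lt_exp.2 (Nat.lt_floor_add_one _)
      rw [hf] at hft
      have ht1 : t.1 = ⌊Real.log (nz (φ.v 0))⌋₊ := by rw [← hft]
      have ht2 : t.2 = ⌊Real.log (nz φ.w)⌋₊ := by rw [← hft]
      rw [ht1, ht2]
      exact ⟨h2, h3, hbox _ (one_le_nz (φ.v_ne 0)), hbox _ (one_le_nz (prim_ne (w_prim φ)))⟩
  have h3 := Finset.card_le_mul_card_image s _ hfib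
  have hsub : s.image f ⊆ Finset.range (P + 1) ×ˢ Finset.range (P + 1) := by
    intro t ht
    obtain ⟨φ, hφ, rfl⟩ := Finset.mem_image.1 ht
    obtain ⟨h1, h2⟩ := hheight φ hφ
    rw [hf]
    simp only [Finset.mem_product, Finset.mem_range, Nat.lt_succ_iff]
    rw [hP]
    exact ⟨Nat.floor_le_floor h1, Nat.floor_le_floor h2⟩
  have h4 := Finset.card_le_card hsub
  rw [Finset.card_product, Finset.card_range] at h4
  have h5 : ((s.image f).card : ℝ) ≤ ((C3 + 2) * Real.log m) ^ 2 := by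
    have h6 : ((P + 1 : ℕ) : ℝ) ≤ (C3 + 2) * Real.log m := by
      have := Nat.floor_le hC3m
      rw [← hP] at this
      push_cast
      nlinarith
    calc ((s.image f).card : ℝ) ≤ (((P + 1) * (P + 1) : ℕ) : ℝ) := by exact_mod_cast h4
      _ = ((P + 1 : ℕ) : ℝ) ^ 2 := by push_cast; ring
      _ ≤ _ := by
          refine pow_le_pow_left₀ (by positivity) h6 2
  calc (s.card : ℝ) ≤ (⌊B0 * gp l⌋₊ : ℝ) * ((s.image f).card : ℝ) := by exact_mod_cast h3
    _ ≤ (B0 * gp l) * ((C3 + 2) * Real.log m) ^ 2 := by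
        refine mul_le_mul (Nat.floor_le (mul_nonneg hB0' (gp_nonneg l))) h5 (by positivity)
          (mul_nonneg hB0' (gp_nonneg l))
    _ = _ := by ring

end KFL
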