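import Mathlib
import Pool.Agent.H27.KF.BXC

/-!
# MP_3fd637_nt : good ordering
-/

namespace KFL

open KF

theorem perm_perm (φ : Frame) (σ τ : Equiv.Perm (Fin 3)) :
    (φ.perm σ).perm τ = φ.perm (σ * τ) := rfl

theorem ang_perm {c : ℝ} {φ : Frame} (h : φ.Ang c) (σ : Equiv.Perm (Fin 3)) :
    (φ.perm σ).Ang c := by
  have h1 : |Matrix.det (φ.perm σ).Rm| = |Matrix.det φ.Rm| := by
    have h2 : (φ.perm σ).Rm = φ.Rm.submatrix σ id := rfl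
    rw [h2, Matrix.det_permute, abs_mul]
    have h3 : |((Equiv.Perm.sign σ : ℤˣ) : ℤ)| = 1 := by
      rcases Int.units_eq_one_or (Equiv.Perm.sign σ) with h | h <;> rw [h] <;> rfl
    have h4 : |(((Equiv.Perm.sign σ : ℤˣ) : ℤ) : ℝ)| = 1 := by
      rw [← Int.cast_abs, h3, Int.cast_one]
    rw [h4, one_mul]
  have h2 : nz ((φ.perm σ).v 0) * nz ((φ.perm σ).v 1) * nz ((φ.perm σ).v 2) =
      nz (φ.v 0) * nz (φ.v 1) * nz (φ.v 2) := by
    have := Equiv.prod_comp σ (fun i => nz (φ.v i))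
    rw [Fin.prod_univ_three, Fin.prod_univ_three] at this
    exact this
  unfold Frame.Ang
  rw [h1, h2]
  exact h

theorem evle_perm {m : ℕ} {φ : Frame} (h : φ.EvLe m) (σ : Equiv.Perm (Fin 3)) :
    (φ.perm σ).EvLe m := fun i => h (σ i)

theorem gap_le {m : ℕ} {φ : Frame} (h : φ.EvLe m) (i j : Fin 3) :
    |((φ.ev i - φ.ev j : ℤ) : ℝ)| ≤ 2 * m := by
  have h1 := h i
  have h2 := h j
  have h3 : |φ.ev i - φ.ev j| ≤ 2 * (m : ℤ) := by
    have := abs_sub (φ.ev i) (φ.ev j)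
    linarith
  rw [← Int.cast_abs]
  exact_mod_cast h3

theorem go_core {c : ℝ} (hc : 0 < c) {m : ℕ} {φ : Frame} (hA : φ.Ang c) (hE : φ.EvLe m)
    (h01 : nz (φ.v 0) ≤ nz (φ.v 1)) (hw : nz φ.w ≤ nz (φ.perm (Equiv.swap 1 2)).w) :
    nz (φ.v 0) ^ 2 ≤ 2 / c * m * nz φ.w ∧ nz φ.w ^ 2 ≤ 2 / c * m * nz (φ.v 0) := by
  obtain ⟨ψ, hψ⟩ : ∃ ψ, ψ = φ.perm (Equiv.swap 1 2) := ⟨_, rfl⟩
  rw [← hψ] at hw
  have hA' : ψ.Ang c := by rw [hψ]; exact ang_perm hA _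
  have hv0 : ψ.v 0 = φ.v 0 := by
    rw [hψ]
    change φ.v (Equiv.swap 1 2 0) = φ.v 0
    congr 1
  have hv1 : ψ.v 1 = φ.v 2 := by
    rw [hψ]
    change φ.v (Equiv.swap 1 2 1) = φ.v 2
    congr 1
  have he2 : ψ.ev 2 = φ.ev 1 := by
    rw [hψ]
    change φ.ev (Equiv.swap 1 2 2) = φ.ev 1
    congr 1
  have hM : ψ.M = φ.M := by rw [hψ]; rfl
  obtain ⟨g, hg⟩ : ∃ g, g = gcd3 (crossZ (φ.v 0) (φ.v 1)) := ⟨_, rfl⟩
  obtain ⟨h, hh⟩ : ∃ h, h = gcd3 (crossZ (ψ.v 0) (ψ.v 1)) := ⟨_, rfl⟩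
  have hg0 : 0 < g := by rw [hg]; exact gcd3_pos (cross_ne φ)
  have hh0 : 0 < h := by rw [hh]; exact gcd3_pos (cross_ne ψ)
  obtain ⟨s1, s2, s3, _⟩ := sizes hc hA
  obtain ⟨_, t2, _, _⟩ := sizes hc hA'
  rw [← hg] at s1 s2
  rw [← hh, hv0, hv1] at t2
  obtain ⟨D, hD⟩ : ∃ D, D = dotZ (crossZ (φ.v 0) (φ.v 1)) (φ.v 2) := ⟨_, rfl⟩
  rw [← hD] at s3
  -- the cross product of the two normal vectors
  have hcr : (g * h) • crossZ φ.w ψ.w = D • φ.v 0 := by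
    have e1 : crossZ (φ.v 0) (φ.v 1) = g • φ.w := by rw [hg]; exact w_smul φ
    have e2 : crossZ (φ.v 0) (φ.v 2) = h • ψ.w := by
      have := w_smul ψ
      rw [← hh, hv0, hv1] at this
      exact this
    have e3 : crossZ (crossZ (φ.v 0) (φ.v 1)) (crossZ (φ.v 0) (φ.v 2)) = D • φ.v 0 := by
      rw [hD]
      funext l
      fin_cases l <;> simp [crossZ, dotZ] <;> ring
    have e4 : crossZ (g • φ.w) (h • ψ.w) = (g * h) • crossZ φ.w ψ.w := by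
      funext l
      fin_cases l <;> simp [crossZ] <;> ring
    rw [← e4, ← e1, ← e2, e3]
  obtain ⟨g', hg'⟩ : ∃ g', g' = gcd3 (crossZ φ.w ψ.w) := ⟨_, rfl⟩
  have hgcd : ∀ (k : ℤ) (x : VZ), gcd3 (k • x) = |k| * gcd3 x := by
    intro k x
    refine Int.dvd_antisymm (gcd3_nonneg _) (mul_nonneg (abs_nonneg _) (gcd3_nonneg _)) ?_ ?_
    · obtain ⟨u, hu⟩ := exists_bezout x
      have h1 : gcd3 (k • x) ∣ k * gcd3 x := by
        have h2 : k * gcd3 x = u 0 * (k • x) 0 + u 1 * (k • x) 1 + u 2 * (k • x) 2 := by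
          rw [← hu, dotZ]
          simp only [Pi.smul_apply, smul_eq_mul]
          ring
        rw [h2]
        exact Dvd.dvd.add (Dvd.dvd.add ((gcd3_dvd _ 0).mul_left _) ((gcd3_dvd _ 1).mul_left _))
          ((gcd3_dvd _ 2).mul_left _)
      rw [← abs_of_nonneg (gcd3_nonneg x), ← abs_mul, dvd_abs]
      exact h1
    · refine dvd_gcd3 fun i => ?_
      rw [← abs_of_nonneg (gcd3_nonneg x), ← abs_mul, abs_dvd]
      simp only [Pi.smul_apply, smul_eq_mul]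
      exact mul_dvd_mul_left _ (gcd3_dvd x i)
  have hDg : |D| = g * h * g' := by
    have h1 := hgcd (g * h) (crossZ φ.w ψ.w)
    rw [hcr, hgcd D, gcd3_of_prim (φ.prim 0), mul_one, ← hg'] at h1
    rw [h1, abs_of_pos (mul_pos hg0 hh0)]
  have hg'd : g' ∣ φ.ev 1 - φ.ev 2 := by
    rw [hg']
    refine IDX φ.M.transpose φ.w ψ.w (φ.ev 2) (φ.ev 1) (w_prim φ) (w_prim ψ)
      (W0 φ).2.2.2.2.2.1 ?_
    have := (W0 ψ).2.2.2.2.2.1
    rw [hM, he2] at this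
    exact this
  have hx12 : φ.ev 1 - φ.ev 2 ≠ 0 := by
    intro h0
    exact absurd (φ.inj (sub_eq_zero.1 h0)) (by decide)
  have hx01 : φ.ev 1 - φ.ev 0 ≠ 0 := by
    intro h0
    exact absurd (φ.inj (sub_eq_zero.1 h0)) (by decide)
  have hg'm : (g' : ℝ) ≤ 2 * m := by
    refine le_trans ?_ (gap_le hE 1 2)
    have h1 : g' ≤ |φ.ev 1 - φ.ev 2| := by
      refine Int.le_of_dvd (abs_pos.2 hx12) ?_
      rw [dvd_abs]
      exact hg'd
    rw [← Int.cast_abs]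
    exact_mod_cast h1
  have hgm : (g : ℝ) ≤ 2 * m := by
    refine le_trans ?_ (gap_le hE 1 0)
    have h1 : g ≤ |φ.ev 1 - φ.ev 0| := by
      refine Int.le_of_dvd (abs_pos.2 hx01) ?_
      rw [dvd_abs, hg]
      exact IDX φ.M (φ.v 0) (φ.v 1) (φ.ev 0) (φ.ev 1) (φ.prim 0) (φ.prim 1) (φ.eig 0) (φ.eig 1)
    rw [← Int.cast_abs]
    exact_mod_cast h1
  have hgR : (0 : ℝ) < g := by exact_mod_cast hg0
  have hhR : (0 : ℝ) < h := by exact_mod_cast hh0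
  have b0 := nz_pos (φ.v_ne 0)
  have b1 := nz_pos (φ.v_ne 1)
  have b2 := nz_pos (φ.v_ne 2)
  have bw := nz_pos (prim_ne (w_prim φ))
  have dw := nz_pos (prim_ne (w_prim ψ))
  have hm0 : (0 : ℝ) ≤ m := Nat.cast_nonneg _
  constructor
  · have k1 : c * nz (φ.v 0) ^ 2 ≤ 2 * m * nz φ.w := by
      calc c * nz (φ.v 0) ^ 2 = c * (nz (φ.v 0) * nz (φ.v 0)) := by ring
        _ ≤ c * (nz (φ.v 0) * nz (φ.v 1)) := by gcongr
        _ ≤ g * nz φ.w := s1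
        _ ≤ 2 * m * nz φ.w := by gcongr
    have k2 : 2 / c * m * nz φ.w = (2 * m * nz φ.w) / c := by ring
    rw [k2, le_div_iff₀ hc]
    linarith
  · have hDr : |((D : ℤ) : ℝ)| = g * h * g' := by
      rw [← Int.cast_abs, hDg]
      push_cast
      ring
    rw [hDr] at s3
    have k1 : (c * (g * h)) * (nz φ.w * nz ψ.w) ≤ (c * (g * h)) * (2 / c * m * nz (φ.v 0)) := by
      calc (c * (g * h)) * (nz φ.w * nz ψ.w) = c * ((g * nz φ.w) * (h * nz ψ.w)) := by ring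
        _ ≤ c * ((nz (φ.v 0) * nz (φ.v 1)) * (nz (φ.v 0) * nz (φ.v 2))) := by
            gcongr
        _ = nz (φ.v 0) * (c * (nz (φ.v 0) * nz (φ.v 1) * nz (φ.v 2))) := by ring
        _ ≤ nz (φ.v 0) * (g * h * g') := by gcongr
        _ ≤ nz (φ.v 0) * (g * h * (2 * m)) := by gcongr
        _ = _ := by field_simp
    have k2 := le_of_mul_le_mul_left k1 (by positivity)
    calc nz φ.w ^ 2 = nz φ.w * nz φ.w := sq _
      _ ≤ nz φ.w * nz ψ.w := by gcongr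
      _ ≤ _ := k2

theorem GO : T_GO := by
  intro c hc
  refine ⟨2 / c, fun m φ _ hA hE => ?_⟩
  obtain ⟨i, _, hi⟩ := Finset.exists_min_image (Finset.univ : Finset (Fin 3))
    (fun i => nz (φ.v i)) ⟨0, Finset.mem_univ _⟩
  obtain ⟨σ, hσ⟩ : ∃ σ : Equiv.Perm (Fin 3), σ = Equiv.swap 0 i := ⟨_, rfl⟩
  have hσ0 : σ 0 = i := by rw [hσ]; exact Equiv.swap_apply_left _ _
  have hmin : ∀ (τ : Equiv.Perm (Fin 3)), τ 0 = i → nz ((φ.perm τ).v 0) ≤ nz ((φ.perm τ).v 1) := by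
    intro τ hτ
    change nz (φ.v (τ 0)) ≤ nz (φ.v (τ 1))
    rw [hτ]
    exact hi _ (Finset.mem_univ _)
  have hτ0 : (σ * Equiv.swap 1 2 : Equiv.Perm (Fin 3)) 0 = i := by
    rw [Equiv.Perm.mul_apply]
    have : (Equiv.swap 1 2 : Equiv.Perm (Fin 3)) 0 = 0 := by decide
    rw [this, hσ0]
  rcases le_total (nz (φ.perm σ).w) (nz ((φ.perm σ).perm (Equiv.swap 1 2)).w) with h | h
  · exact ⟨σ, go_core hc (ang_perm hA σ) (evle_perm hE σ) (hmin σ hσ0) h⟩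
  · refine ⟨σ * Equiv.swap 1 2, go_core hc (ang_perm hA _) (evle_perm hE _) (hmin _ hτ0) ?_⟩
    rw [perm_perm] at h
    rw [perm_perm, mul_assoc, Equiv.swap_mul_self, mul_one]
    exact h

end KFL
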