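import Mathlib
import Pool.Agent.H27.KF.BX
import Pool.Agent.H27.KF.GO

/-!
# MP_3fd637_nt : the strip above the bulk
-/

open Filter Topology

namespace KFL

open KF

theorem exp_floor_log {x : ℝ} (hx : 1 ≤ x) :
    Real.exp ⌊Real.log x⌋₊ ≤ x ∧ x < Real.exp (⌊Real.log x⌋₊ + 1) := by
  have hx0 : 0 < x := by linarith
  constructor
  · calc Real.exp ⌊Real.log x⌋₊ ≤ Real.exp (Real.log x) :=
        Real.exp_le_exp.2 (Nat.floor_le (Real.log_nonneg hx))
      _ = x := Real.exp_log hx0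
  · calc x = Real.exp (Real.log x) := (Real.exp_log hx0).symm
      _ < _ := Real.exp_lt_exp.2 (Nat.lt_floor_add_one _)

theorem gp_le {m : ℕ} {φ : Frame} (h : φ.EvLe m) : gp φ.ev ≤ 8 * (m : ℝ) ^ 3 := by
  unfold gp
  have h1 := gap_le h 1 0
  have h2 := gap_le h 2 1
  have h3 := gap_le h 2 0
  calc |((φ.ev 1 - φ.ev 0 : ℤ) : ℝ)| * |((φ.ev 2 - φ.ev 1 : ℤ) : ℝ)| *
      |((φ.ev 2 - φ.ev 0 : ℤ) : ℝ)| ≤ (2 * m) * (2 * m) * (2 * m) := by gcongr
    _ = _ := by ring

theorem loglog_small (ε C : ℝ) (hε : 0 < ε) :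
    ∀ᶠ m : ℕ in atTop, Real.log (Real.log m) + C ≤ ε * Real.log m := by
  have h1 : Tendsto (fun m : ℕ => Real.log (m : ℝ)) atTop atTop :=
    Real.tendsto_log_atTop.comp tendsto_natCast_atTop_atTop
  have h2 : ∀ᶠ L : ℝ in atTop, Real.log L + C ≤ ε * L := by
    have h3 := Real.isLittleO_log_id_atTop.def (show (0 : ℝ) < ε / 2 by linarith)
    filter_upwards [h3, eventually_ge_atTop (2 * C / ε), eventually_ge_atTop 0] with L h4 h5 h6
    have h7 : Real.log L ≤ ε / 2 * L := by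
      refine (le_abs_self _).trans ?_
      have h8 : |Real.log L| ≤ ε / 2 * |L| := by simpa using h4
      rwa [abs_of_nonneg h6] at h8
    have h8 : C ≤ ε / 2 * L := by
      rw [div_le_iff₀ hε] at h5
      linarith
    linarith
  exact h1.eventually h2

theorem card_ev (m : ℕ) :
    (Fintype.piFinset (fun _ : Fin 3 => Finset.Icc (-(m : ℤ)) m)).card = (2 * m + 1) ^ 3 := by
  rw [Fintype.card_piFinset]
  simp only [Finset.prod_const, Finset.card_univ, Fintype.card_fin, Int.card_Icc]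
  congr 1
  omega

theorem STRIP : T_STRIP := by
  classical
  intro c C0 η hc hC0 hη
  obtain ⟨C1, hC1⟩ := BX c hc
  obtain ⟨B1, hB1⟩ : ∃ B1, B1 = max C1 1 := ⟨_, rfl⟩
  have hB1' : 1 ≤ B1 := by rw [hB1]; exact le_max_right _ _
  obtain ⟨D0, hD0⟩ : ∃ D0, D0 = max C0 1 := ⟨_, rfl⟩
  have hD0' : 1 ≤ D0 := by rw [hD0]; exact le_max_right _ _
  obtain ⟨ε, hε⟩ : ∃ ε, ε = Real.sqrt (η / (B1 * 216)) := ⟨_, rfl⟩
  have hε0 : 0 < ε := by rw [hε]; exact Real.sqrt_pos.2 (by positivity)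
  have hεsq : ε ^ 2 = η / (B1 * 216) := by rw [hε]; exact Real.sq_sqrt (by positivity)
  have hlogD : 0 ≤ Real.log D0 := Real.log_nonneg hD0'
  filter_upwards [loglog_small ε (2 * Real.log D0 + 2) hε0, eventually_ge_atTop 3] with m hm hm3 s hs
  have hm1 : (1 : ℝ) ≤ m := by exact_mod_cast (by omega : 1 ≤ m)
  have hm0 : (0 : ℝ) < m := by linarith
  have hL1 : 1 ≤ Real.log m := by
    rw [Real.le_log_iff_exp_le hm0]
    have := Real.exp_one_lt_d9
    have h3 : (3 : ℝ) ≤ m := by exact_mod_cast hm3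
    linarith
  have hLL : 0 ≤ Real.log (Real.log m) := Real.log_nonneg hL1
  -- sizes
  have hsize : ∀ φ ∈ s, (nz (φ.v 0) ≤ D0 * m ∧ (m : ℝ) / (D0 * Real.log m) ≤ nz (φ.v 0)) ∧
      (nz φ.w ≤ D0 * m ∧ (m : ℝ) / (D0 * Real.log m) ≤ nz φ.w) := by
    intro φ hφ
    obtain ⟨_, _, h1, h2, h3⟩ := hs φ hφ
    obtain ⟨A, hA⟩ : ∃ A, A = nz (φ.v 0) := ⟨_, rfl⟩
    obtain ⟨B, hB⟩ : ∃ B, B = nz φ.w := ⟨_, rfl⟩
    rw [← hA, ← hB] at h1 h2 h3
    rw [← hA, ← hB]
    have hA0 : 0 < A := by rw [hA]; exact nz_pos (φ.v_ne 0)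
    have hB0 : 0 < B := by rw [hB]; exact nz_pos (prim_ne (w_prim φ))
    have h1' : A ^ 2 ≤ D0 * m * B := by
      refine h1.trans ?_
      rw [hD0]
      have := le_max_left C0 1
      gcongr
    have h2' : B ^ 2 ≤ D0 * m * A := by
      refine h2.trans ?_
      rw [hD0]
      have := le_max_left C0 1
      gcongr
    have hAle : A ≤ D0 * m := by
      have k1 : A ^ 3 * A ≤ (D0 * m) ^ 3 * A := by
        calc A ^ 3 * A = (A ^ 2) ^ 2 := by ring
          _ ≤ (D0 * m * B) ^ 2 := by gcongr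
          _ = (D0 * m) ^ 2 * B ^ 2 := by ring
          _ ≤ (D0 * m) ^ 2 * (D0 * m * A) := by gcongr
          _ = _ := by ring
      have k2 := le_of_mul_le_mul_right k1 hA0
      exact (pow_le_pow_iff_left₀ hA0.le (by positivity) (by norm_num)).1 k2
    have hBle : B ≤ D0 * m := by
      have k1 : B ^ 3 * B ≤ (D0 * m) ^ 3 * B := by
        calc B ^ 3 * B = (B ^ 2) ^ 2 := by ring
          _ ≤ (D0 * m * A) ^ 2 := by gcongr
          _ = (D0 * m) ^ 2 * A ^ 2 := by ring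
          _ ≤ (D0 * m) ^ 2 * (D0 * m * B) := by gcongr
          _ = _ := by ring
      have k2 := le_of_mul_le_mul_right k1 hB0
      exact (pow_le_pow_iff_left₀ hB0.le (by positivity) (by norm_num)).1 k2
    refine ⟨⟨hAle, ?_⟩, hBle, ?_⟩
    · rw [div_le_iff₀ (by positivity)]
      have k1 : (m : ℝ) * m ≤ (A * (D0 * Real.log m)) * m := by
        calc (m : ℝ) * m = (m : ℝ) ^ 2 := by ring
          _ ≤ A * B * Real.log m := h3.le
          _ ≤ A * (D0 * m) * Real.log m := by gcongr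
          _ = _ := by ring
      exact le_of_mul_le_mul_right k1 hm0
    · rw [div_le_iff₀ (by positivity)]
      have k1 : (m : ℝ) * m ≤ (B * (D0 * Real.log m)) * m := by
        calc (m : ℝ) * m = (m : ℝ) ^ 2 := by ring
          _ ≤ A * B * Real.log m := h3.le
          _ ≤ (D0 * m) * B * Real.log m := by gcongr
          _ = _ := by ring
      exact le_of_mul_le_mul_right k1 hm0
  have hlogs : ∀ x : ℝ, x ≤ D0 * m → (m : ℝ) / (D0 * Real.log m) ≤ x →
      Real.log x ≤ Real.log m + Real.log D0 ∧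
      Real.log m - Real.log (Real.log m) - Real.log D0 ≤ Real.log x := by
    intro x h1 h2
    have h3 : (0 : ℝ) < m / (D0 * Real.log m) := by positivity
    have hx : 0 < x := lt_of_lt_of_le h3 h2
    constructor
    · have := Real.log_le_log hx h1
      rw [Real.log_mul (by positivity) (by positivity)] at this
      linarith
    · have := Real.log_le_log h3 h2
      rw [Real.log_div (by positivity) (by positivity),
        Real.log_mul (by positivity) (by positivity)] at this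
      linarith
  obtain ⟨P0, hP0⟩ : ∃ P0 : ℕ, P0 = ⌊Real.log m - Real.log (Real.log m) - Real.log D0⌋₊ :=
    ⟨_, rfl⟩
  obtain ⟨P1, hP1⟩ : ∃ P1 : ℕ, P1 = ⌊Real.log m + Real.log D0⌋₊ := ⟨_, rfl⟩
  obtain ⟨f, hf⟩ : ∃ f : Frame → (Fin 3 → ℤ) × ℕ × ℕ,
    f = fun φ => (φ.ev, ⌊Real.log (nz (φ.v 0))⌋₊, ⌊Real.log (nz φ.w)⌋₊) := ⟨_, rfl⟩
  have hfib : ∀ t ∈ s.image f, (s.filter fun φ => f φ = t).card ≤ ⌊B1 * (8 * (m : ℝ) ^ 3)⌋₊ := by
    intro t ht
    obtain ⟨ψ, hψ, rfl⟩ := Finset.mem_image.1 ht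
    have h1 := hC1 ψ.ev (⌊Real.log (nz (ψ.v 0))⌋₊) (⌊Real.log (nz ψ.w)⌋₊)
      (s.filter fun φ => f φ = f ψ) ?_
    · refine Nat.le_floor (h1.trans ?_)
      have h2 := gp_le (hs ψ hψ).2.1
      calc C1 * gp ψ.ev ≤ B1 * gp ψ.ev := by
            rw [hB1]
            exact mul_le_mul_of_nonneg_right (le_max_left _ _) (gp_nonneg _)
        _ ≤ B1 * (8 * (m : ℝ) ^ 3) := by gcongr
    · intro φ hφ
      rw [Finset.mem_filter] at hφ
      obtain ⟨hφs, hft⟩ := hφ
      rw [hf] at hft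
      simp only [Prod.mk.injEq] at hft
      rw [← hft.1, ← hft.2.1, ← hft.2.2]
      exact ⟨rfl, (hs φ hφs).1, exp_floor_log (one_le_nz (φ.v_ne 0)),
        exp_floor_log (one_le_nz (prim_ne (w_prim φ)))⟩
  have h3 := Finset.card_le_mul_card_image s _ hfib
  have hsub : s.image f ⊆ Fintype.piFinset (fun _ : Fin 3 => Finset.Icc (-(m : ℤ)) m) ×ˢ
      (Finset.Icc P0 P1 ×ˢ Finset.Icc P0 P1) := by
    intro t ht
    obtain ⟨φ, hφ, rfl⟩ := Finset.mem_image.1 ht
    obtain ⟨⟨a1, a2⟩, b1, b2⟩ := hsize φ hφ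
    rw [hf]
    simp only [Finset.mem_product, Fintype.mem_piFinset, Finset.mem_Icc]
    obtain ⟨l1, l2⟩ := hlogs _ a1 a2
    obtain ⟨l3, l4⟩ := hlogs _ b1 b2
    refine ⟨fun i => abs_le.1 ((hs φ hφ).2.1 i), ?_, ?_⟩
    · rw [hP0, hP1]
      exact ⟨Nat.floor_le_floor l2, Nat.floor_le_floor l1⟩
    · rw [hP0, hP1]
      exact ⟨Nat.floor_le_floor l4, Nat.floor_le_floor l3⟩
  have h4 := Finset.card_le_card hsub
  rw [Finset.card_product, Finset.card_product, card_ev] at h4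
  have hI : ((Finset.Icc P0 P1).card : ℝ) ≤ ε * Real.log m := by
    refine le_trans ?_ hm
    rw [Nat.card_Icc]
    have k1 : Real.log m - Real.log (Real.log m) - Real.log D0 - 1 < P0 := by
      rw [hP0]; exact Nat.sub_one_lt_floor _
    have k2 : (P1 : ℝ) ≤ Real.log m + Real.log D0 := by
      rw [hP1]; exact Nat.floor_le (by linarith)
    rcases le_total P0 (P1 + 1) with h | h
    · rw [Nat.cast_sub h]
      push_cast
      linarith
    · rw [Nat.sub_eq_zero_of_le h]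
      push_cast
      linarith
  have hlogm0 : 0 ≤ ε * Real.log m := by positivity
  have h5 : ((s.image f).card : ℝ) ≤ 27 * (m : ℝ) ^ 3 * (ε * Real.log m) ^ 2 := by
    calc ((s.image f).card : ℝ) ≤
        (((2 * m + 1) ^ 3 * ((Finset.Icc P0 P1).card * (Finset.Icc P0 P1).card) : ℕ) : ℝ) := by
          exact_mod_cast h4
      _ = (2 * m + 1) ^ 3 * (((Finset.Icc P0 P1).card : ℝ) * (Finset.Icc P0 P1).card) := by
          push_cast; ring
      _ ≤ (3 * m) ^ 3 * ((ε * Real.log m) * (ε * Real.log m)) := by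
          gcongr
          linarith
      _ = _ := by ring
  calc (s.card : ℝ) ≤ (⌊B1 * (8 * (m : ℝ) ^ 3)⌋₊ : ℝ) * ((s.image f).card : ℝ) := by
        exact_mod_cast h3
    _ ≤ (B1 * (8 * (m : ℝ) ^ 3)) * (27 * (m : ℝ) ^ 3 * (ε * Real.log m) ^ 2) := by
        refine mul_le_mul (Nat.floor_le (by positivity)) h5 (by positivity) (by positivity)
    _ = (B1 * 216) * ε ^ 2 * (m : ℝ) ^ 6 * Real.log m ^ 2 := by ring
    _ = η * (m : ℝ) ^ 6 * Real.log m ^ 2 := by
        rw [hεsq, mul_div_cancel₀]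
        positivity

end KFL
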