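import Mathlib
import Pool.Agent.H27.KF.STRIP

/-!
# MP_3fd637_nt : lower bound for the total mass
-/

open Filter Topology
open scoped ENNReal

namespace KFL

open KF

theorem S4 (hMC : T_MC) : T_S4 := by
  classical
  obtain ⟨c0, c, hc0, hc, hev⟩ := hMC
  refine ⟨c0, c ^ 2 / (48 * 216), hc0, by positivity, ?_⟩
  choose g a c' b htri ha hc' hb hg0 hg2 using TR
  filter_upwards [hev, eventually_ge_atTop 3] with m hm hm3
  obtain ⟨s, hs, hcard⟩ := hm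
  have hm1 : (1 : ℝ) ≤ m := by exact_mod_cast (by omega : 1 ≤ m)
  have hE : ∀ φ ∈ s, φ.EvLe m := by
    intro φ hφ
    refine EV3 m φ 1 ?_
    rw [conjZ_one]
    exact (hs φ hφ).1
  obtain ⟨T, hT⟩ : ∃ T : Frame → (Fin 3 → ℤ) × ℤ × ℤ × ℤ, T = fun φ => (φ.ev, a φ, c' φ, b φ) :=
    ⟨_, rfl⟩
  -- conjugacy
  have hTM : ∀ φ ψ, T φ = T ψ → conjZ ((g ψ)⁻¹ * g φ) φ.M = ψ.M := by
    intro φ ψ h
    rw [hT] at h
    simp only [Prod.mk.injEq] at h
    rw [conjZ_mul, htri φ, h.1, h.2.1, h.2.2.1, h.2.2.2, ← htri ψ, ← conjZ_mul, inv_mul_cancel,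
      conjZ_one]
  -- lower bound for `bm`
  have hbm : ∀ φ, (((s.filter fun ψ => T ψ = T φ).card : ℝ) / 48) ≤ ((s.filter fun ψ => T ψ = T φ).image
      (fun ψ => ψ.M)).card := by
    intro φ
    have h1 : (s.filter fun ψ => T ψ = T φ).card ≤
        48 * ((s.filter fun ψ => T ψ = T φ).image (fun ψ => ψ.M)).card := by
      refine Finset.card_le_mul_card_image _ _ fun M _ => ?_
      exact card_same_M _ M fun ψ hψ => (Finset.mem_filter.1 hψ).2
    rw [div_le_iff₀ (by norm_num)]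
    have : (((s.filter fun ψ => T ψ = T φ).card : ℕ) : ℝ) ≤
        ((48 * ((s.filter fun ψ => T ψ = T φ).image (fun ψ => ψ.M)).card : ℕ) : ℝ) := by
      exact_mod_cast h1
    push_cast at this
    linarith
  have hbm2 : ∀ φ, ((((s.filter fun ψ => T ψ = T φ).image
      (fun ψ => ψ.M)).card : ℕ) : ℝ≥0∞) ≤ bm m φ.M := by
    intro φ
    obtain ⟨F, hF⟩ : ∃ F, F = s.filter fun ψ => T ψ = T φ := ⟨_, rfl⟩
    rw [← hF]
    -- choose a conjugator for every matrix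
    have h1 : ∀ M ∈ F.image (fun ψ => ψ.M), ∃ γ : GZ, conjZ γ φ.M = M ∧ l1 (n := 2) M ≤ m := by
      intro M hM
      obtain ⟨ψ, hψ, rfl⟩ := Finset.mem_image.1 hM
      rw [hF, Finset.mem_filter] at hψ
      exact ⟨_, hTM φ ψ hψ.2.symm, (hs ψ hψ.1).1⟩
    choose! γ hγ using h1
    have h2 : Set.InjOn γ (F.image (fun ψ => ψ.M) : Finset MZ) := by
      intro M hM M' hM' h
      rw [← (hγ M hM).1, ← (hγ M' hM').1, h]
    rw [← Finset.card_image_of_injOn h2]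
    have h3 : ((((F.image (fun ψ => ψ.M)).image γ).card : ℕ) : ℝ≥0∞) =
        ∑ δ ∈ (F.image (fun ψ => ψ.M)).image γ,
          (if l1 (n := 2) (conjZ δ φ.M) ≤ m then (1 : ℝ≥0∞) else 0) := by
      rw [Finset.sum_congr rfl (g := fun _ => (1 : ℝ≥0∞))]
      · simp
      · intro δ hδ
        obtain ⟨M, hM, rfl⟩ := Finset.mem_image.1 hδ
        rw [if_pos]
        rw [(hγ M hM).1]
        exact (hγ M hM).2
    rw [h3]
    exact ENNReal.sum_le_tsum _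
  -- sum
  have hsum : ∑ φ ∈ s, ENNReal.ofReal (((s.filter fun ψ => T ψ = T φ).card : ℝ) / 48) ≤
      ∑' φ : Frame, Set.indicator {φ : Frame | φ.Ang c0} (fun φ => bm m φ.M) φ := by
    refine le_trans (Finset.sum_le_sum fun φ hφ => ?_) (ENNReal.sum_le_tsum s)
    rw [Set.indicator_of_mem (show φ ∈ {φ : Frame | φ.Ang c0} from (hs φ hφ).2)]
    refine le_trans ?_ (hbm2 φ)
    rw [← ENNReal.ofReal_natCast]
    exact ENNReal.ofReal_le_ofReal (hbm φ)
  refine le_trans ?_ hsum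
  rw [← ENNReal.ofReal_sum_of_nonneg (fun φ _ => by positivity)]
  refine ENNReal.ofReal_le_ofReal ?_
  -- number of types
  obtain ⟨I, hI⟩ : ∃ I, I = s.image T := ⟨_, rfl⟩
  have hIc : (I.card : ℝ) ≤ 216 * (m : ℝ) ^ 6 := by
    have hsub : I ⊆ Fintype.piFinset (fun _ : Fin 3 => Finset.Icc (-(m : ℤ)) m) ×ˢ
        (Finset.Ico 0 (2 * (m : ℤ)) ×ˢ (Finset.Ico 0 (2 * (m : ℤ)) ×ˢ
          Finset.Ico 0 (2 * (m : ℤ)))) := by
      intro t ht
      rw [hI] at ht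
      obtain ⟨φ, hφ, rfl⟩ := Finset.mem_image.1 ht
      rw [hT]
      simp only [Finset.mem_product, Fintype.mem_piFinset, Finset.mem_Icc, Finset.mem_Ico]
      have hg : ∀ i j, |φ.ev i - φ.ev j| ≤ 2 * (m : ℤ) := by
        intro i j
        have h1 := abs_sub (φ.ev i) (φ.ev j)
        have h2 := hE φ hφ i
        have h3 := hE φ hφ j
        linarith
      refine ⟨fun i => abs_le.1 (hE φ hφ i), ⟨(ha φ).1, (ha φ).2.trans_le (hg 1 0)⟩,
        ⟨(hc' φ).1, (hc' φ).2.trans_le (hg 2 1)⟩, ⟨(hb φ).1, (hb φ).2.trans_le (hg 2 0)⟩⟩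
    have h1 := Finset.card_le_card hsub
    rw [Finset.card_product, Finset.card_product, Finset.card_product, card_ev, Int.card_Ico] at h1
    have h2 : (2 * (m : ℤ) - 0).toNat = 2 * m := by omega
    rw [h2] at h1
    calc (I.card : ℝ) ≤ (((2 * m + 1) ^ 3 * (2 * m * (2 * m * (2 * m))) : ℕ) : ℝ) := by
          exact_mod_cast h1
      _ = (2 * m + 1) ^ 3 * (8 * (m : ℝ) ^ 3) := by push_cast; ring
      _ ≤ (3 * m) ^ 3 * (8 * (m : ℝ) ^ 3) := by
          gcongr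
          linarith
      _ = _ := by ring
  have h1 : ∑ φ ∈ s, (((s.filter fun ψ => T ψ = T φ).card : ℝ) / 48) =
      (∑ t ∈ I, ((s.filter fun ψ => T ψ = t).card : ℝ) ^ 2) / 48 := by
    have h2 := Finset.sum_comp (s := s) (fun t => (((s.filter fun ψ => T ψ = t).card : ℝ) / 48)) T
    rw [h2, ← hI, Finset.sum_div]
    refine Finset.sum_congr rfl fun t _ => ?_
    rw [nsmul_eq_mul]
    ring
  rw [h1]
  have h2 : (s.card : ℝ) = ∑ t ∈ I, ((s.filter fun ψ => T ψ = t).card : ℝ) := by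
    rw [hI]
    exact_mod_cast Finset.card_eq_sum_card_image T s
  have h3 : (s.card : ℝ) ^ 2 ≤ I.card * ∑ t ∈ I, ((s.filter fun ψ => T ψ = t).card : ℝ) ^ 2 := by
    rw [h2]
    exact sq_sum_le_card_mul_sum_sq
  have h4 : (s.card : ℝ) ^ 2 ≤ (216 * (m : ℝ) ^ 6) *
      ∑ t ∈ I, ((s.filter fun ψ => T ψ = t).card : ℝ) ^ 2 :=
    h3.trans (mul_le_mul_of_nonneg_right hIc (Finset.sum_nonneg fun _ _ => sq_nonneg _))
  have h5 : (c * (m : ℝ) ^ 6 * Real.log m ^ 2) ^ 2 ≤ (s.card : ℝ) ^ 2 := by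
    refine pow_le_pow_left₀ ?_ hcard 2
    positivity
  have h6 : (m : ℝ) ^ 6 * (c ^ 2 * (m : ℝ) ^ 6 * Real.log m ^ 4) ≤ (m : ℝ) ^ 6 *
      (216 * ∑ t ∈ I, ((s.filter fun ψ => T ψ = t).card : ℝ) ^ 2) := by
    calc (m : ℝ) ^ 6 * (c ^ 2 * (m : ℝ) ^ 6 * Real.log m ^ 4) =
        (c * (m : ℝ) ^ 6 * Real.log m ^ 2) ^ 2 := by ring
      _ ≤ _ := h5.trans h4
      _ = _ := by ring
  have h7 := le_of_mul_le_mul_left h6 (by positivity)
  rw [le_div_iff₀ (by norm_num)]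
  unfold Zm
  have h8 : c ^ 2 / (48 * 216) * ((m : ℝ) ^ 6 * Real.log m ^ 4) * 48 =
      (c ^ 2 * (m : ℝ) ^ 6 * Real.log m ^ 4) / 216 := by ring
  rw [h8, div_le_iff₀ (by norm_num)]
  linarith

end KFL
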